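import Pool.Agent.X43.HE.Mat
import Pool.Agent.W259.GP.Main
import Pool.Agent.W259.GP.Fin

/-!
# Small-rank endomorphisms of a lattice, asymptotics
-/

set_option autoImplicit false

namespace Pool.Agent.X43.HE

open Matrix Pool.Agent.H160R3.Herm Pool.Agent.TH220.HG Filter

theorem bound_ev (ε : ℝ) (hε : 0 < ε) :
    ∀ᶠ n : ℕ in atTop, hermite n / n ≤ 1 / Real.pi ^ 2 + ε :=
  Pool.Agent.W259.GP.hermite_bound Pool.Agent.W259.GP.s_main ε hε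

/-- all the constants up to `n` -/
theorem ev_bound (ε : ℝ) (hε : 0 < ε) :
    ∀ᶠ n : ℕ in atTop, ∀ f : ℕ, 1 ≤ f → f ≤ n →
      hermite f ≤ Real.exp ε / Real.pi ^ 2 * n := by
  have hpi : 0 < Real.pi ^ 2 := by positivity
  have hK : 0 < Real.exp ε / Real.pi ^ 2 := by positivity
  have he : 1 < Real.exp ε := Real.one_lt_exp_iff.2 hε
  have h1 := bound_ev ((Real.exp ε - 1) / Real.pi ^ 2) (by
    apply div_pos _ hpi
    linarith)
  obtain ⟨N, hN⟩ := eventually_atTop.1 h1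
  have hsum : 1 / Real.pi ^ 2 + (Real.exp ε - 1) / Real.pi ^ 2 = Real.exp ε / Real.pi ^ 2 := by
    rw [← add_div]
    ring_nf
  filter_upwards [eventually_ge_atTop ⌈(N : ℝ) / (Real.exp ε / Real.pi ^ 2)⌉₊] with n hn f hf1 hfn
  have hf0 : (0 : ℝ) < f := by exact_mod_cast hf1
  rcases le_or_gt N f with h | h
  · have h2 := hN f h
    rw [hsum, div_le_iff₀ hf0] at h2
    refine h2.trans (mul_le_mul_of_nonneg_left ?_ hK.le)
    exact_mod_cast hfn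
  · have h2 := hermite_le (n := f) hf1
    have h3 : (N : ℝ) / (Real.exp ε / Real.pi ^ 2) ≤ n := (Nat.le_ceil _).trans (by exact_mod_cast hn)
    rw [div_le_iff₀ hK] at h3
    have h4 : (f : ℝ) ≤ N := by exact_mod_cast h.le
    linarith

theorem gam_pow {n : ℕ} (hn : 0 < n) {A : Matrix (Fin n) (Fin n) ℝ} (hA : A.det ≠ 0) :
    gam A ^ n = minSq A ^ n / A.det ^ 2 := by
  have hd : 0 < |A.det| := abs_pos.2 hA
  have hn' : (n : ℝ) ≠ 0 := by positivity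
  rw [gam, div_pow, ← Real.rpow_natCast (|A.det| ^ ((2 : ℝ) / n)), ← Real.rpow_mul hd.le,
    div_mul_cancel₀ _ hn']
  norm_num

theorem gam_pos {n : ℕ} (hn : 0 < n) {A : Matrix (Fin n) (Fin n) ℝ} (hA : A.det ≠ 0) :
    0 < gam A := by
  have hd : 0 < |A.det| := abs_pos.2 hA
  exact div_pos (minSq_pos hn hA) (by positivity)

theorem gam_le {n : ℕ} (hn : 0 < n) {A : Matrix (Fin n) (Fin n) ℝ} (hA : A.det ≠ 0) :
    gam A ≤ hermite n := le_hermite hn A hA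

theorem master_gam {n : ℕ} (hn : 0 < n) {A : Matrix (Fin n) (Fin n) ℝ} (hA : A.det ≠ 0)
    {D Γ : ℝ} (hD : 0 < D) (hΓ0 : 0 ≤ Γ) (s : ℕ) (hΓ : ∀ u, 1 ≤ u → u ≤ s → hermite u ≤ Γ)
    (S : Set (Matrix (Fin n) (Fin n) ℤ)) (hr : ∀ T ∈ S, T.rank ≤ s)
    (hS : ∀ T ∈ S, ∀ x : Fin n → ℝ, ∑ i, (A *ᵥ (T.map (fun z : ℤ => (z : ℝ)) *ᵥ x)) i ^ 2 ≤
      D ^ 2 * ∑ i, (A *ᵥ x) i ^ 2) :
    kerRank S ≤ n ∧
    gam A ^ n ≤ hermite (kerRank S) ^ kerRank S * (D ^ 2 * Γ) ^ (n - kerRank S) := by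
  obtain ⟨h1, h2⟩ := master_mat hn hA hD hΓ0 s hΓ S hr hS
  refine ⟨h1, ?_⟩
  have hd : 0 < A.det ^ 2 := by positivity
  rw [gam_pow hn hA, div_le_iff₀ hd]
  exact h2

/-- logarithmic form -/
theorem log_form {n : ℕ} (hn : 0 < n) {A : Matrix (Fin n) (Fin n) ℝ} (hA : A.det ≠ 0)
    {D Γ c ε : ℝ} (hD : 0 < D) (hΓ0 : 0 < Γ) (hc : 0 < c) (hε : 0 < ε) (s : ℕ)
    (hb : ∀ f : ℕ, 1 ≤ f → f ≤ n → hermite f ≤ Real.exp ε / Real.pi ^ 2 * n)
    (hcA : c * n ≤ gam A)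
    (hΓ : ∀ u, 1 ≤ u → u ≤ s → hermite u ≤ Γ)
    (S : Set (Matrix (Fin n) (Fin n) ℤ)) (hr : ∀ T ∈ S, T.rank ≤ s)
    (hS : ∀ T ∈ S, ∀ x : Fin n → ℝ, ∑ i, (A *ᵥ (T.map (fun z : ℤ => (z : ℝ)) *ᵥ x)) i ^ 2 ≤
      D ^ 2 * ∑ i, (A *ᵥ x) i ^ 2) :
    ((n : ℝ) - kerRank S) * Real.log (n / (Real.pi ^ 2 * D ^ 2 * Γ)) ≤
      (Real.log (1 / (Real.pi ^ 2 * c)) + ε) * n := by
  obtain ⟨h1, h2⟩ := master_gam hn hA hD hΓ0.le s hΓ S hr hS
  obtain ⟨f, hf⟩ : ∃ f, f = kerRank S := ⟨_, rfl⟩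
  rw [← hf] at h1 h2 ⊢
  have hpi := Real.pi_pos
  have hn' : (0 : ℝ) < n := by exact_mod_cast hn
  have hK : 0 < Real.exp ε / Real.pi ^ 2 * n := by positivity
  have h3 : (c * n) ^ n ≤ (Real.exp ε / Real.pi ^ 2 * n) ^ f * (D ^ 2 * Γ) ^ (n - f) := by
    calc (c * n) ^ n ≤ gam A ^ n := pow_le_pow_left₀ (by positivity) hcA n
      _ ≤ hermite f ^ f * (D ^ 2 * Γ) ^ (n - f) := h2
      _ ≤ _ := by
        refine mul_le_mul_of_nonneg_right ?_ (by positivity)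
        rcases Nat.eq_zero_or_pos f with h0 | h0
        · rw [h0, pow_zero, pow_zero]
        · exact pow_le_pow_left₀ (hermite_nonneg' f) (hb f h0 h1) f
  have h4 := Real.log_le_log (by positivity) h3
  rw [Real.log_mul (by positivity) (by positivity), Real.log_pow, Real.log_pow, Real.log_pow,
    Real.log_mul hc.ne' hn'.ne', Real.log_mul (by positivity) hn'.ne',
    Real.log_div (Real.exp_ne_zero _) (by positivity), Real.log_exp, Nat.cast_sub h1] at h4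
  rw [Real.log_div hn'.ne' (by positivity), mul_assoc, Real.log_mul (by positivity) (by positivity),
    one_div, Real.log_inv, Real.log_mul (by positivity) hc.ne']
  have hfn : (f : ℝ) ≤ n := by exact_mod_cast h1
  have hf0 : (0 : ℝ) ≤ f := Nat.cast_nonneg f
  nlinarith [mul_le_mul_of_nonneg_right hfn hε.le]

/-- the asymptotic theorem -/
theorem asym (c σ D ε : ℝ) (hc : 0 < c) (hσ : 0 < σ) (hD : 0 < D) (hε : 0 < ε) :
    ∀ᶠ n : ℕ in atTop, ∀ A : Matrix (Fin n) (Fin n) ℝ, A.det ≠ 0 → c * n ≤ gam A →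
      ∀ S : Set (Matrix (Fin n) (Fin n) ℤ), (∀ T ∈ S, (T.rank : ℝ) ≤ σ * n) →
      (∀ T ∈ S, ∀ x : Fin n → ℝ, ∑ i, (A *ᵥ (T.map (fun z : ℤ => (z : ℝ)) *ᵥ x)) i ^ 2 ≤
        D ^ 2 * ∑ i, (A *ᵥ x) i ^ 2) →
      ((n : ℝ) - kerRank S) * Real.log (1 / (D ^ 2 * σ)) ≤
        (Real.log (1 / (Real.pi ^ 2 * c)) + ε) * n := by
  have hpi := Real.pi_pos
  have hb := ev_bound (ε / 2) (by positivity)
  have ht : Tendsto (fun n : ℕ => ⌊σ * n⌋₊) atTop atTop :=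
    tendsto_nat_floor_atTop.comp (tendsto_natCast_atTop_atTop.const_mul_atTop hσ)
  have hb' := ht.eventually hb
  filter_upwards [hb, hb', eventually_gt_atTop 0] with n h1 h2 hn A hA hcA S hr hS
  have hn' : (0 : ℝ) < n := by exact_mod_cast hn
  obtain ⟨Γ, hΓ⟩ : ∃ Γ, Γ = Real.exp (ε / 2) / Real.pi ^ 2 * (σ * n) := ⟨_, rfl⟩
  have hΓ0 : 0 < Γ := by rw [hΓ]; positivity
  have key := log_form hn hA hD hΓ0 hc (half_pos hε) ⌊σ * n⌋₊ h1 hcA (fun u hu1 hu2 => by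
    refine (h2 u hu1 hu2).trans ?_
    rw [hΓ]
    refine mul_le_mul_of_nonneg_left ?_ (by positivity)
    exact Nat.floor_le (by positivity)) S (fun T hT => Nat.le_floor (hr T hT)) hS
  have hker := (master_gam hn hA hD hΓ0.le ⌊σ * n⌋₊ (fun u hu1 hu2 => by
    refine (h2 u hu1 hu2).trans ?_
    rw [hΓ]
    refine mul_le_mul_of_nonneg_left ?_ (by positivity)
    exact Nat.floor_le (by positivity)) S (fun T hT => Nat.le_floor (hr T hT)) hS).1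
  have hkn : (kerRank S : ℝ) ≤ n := by exact_mod_cast hker
  have hk0 : (0 : ℝ) ≤ kerRank S := Nat.cast_nonneg _
  have e1 : Real.log (n / (Real.pi ^ 2 * D ^ 2 * Γ)) = Real.log (1 / (D ^ 2 * σ)) - ε / 2 := by
    have : (n : ℝ) / (Real.pi ^ 2 * D ^ 2 * Γ) = 1 / (D ^ 2 * σ) / Real.exp (ε / 2) := by
      rw [hΓ]
      have := Real.exp_pos (ε / 2)
      field_simp
    rw [this, Real.log_div (by positivity) (Real.exp_ne_zero _), Real.log_exp]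
  rw [e1] at key
  nlinarith [key, mul_nonneg hk0 hε.le]

/-- sublinear ranks -/
theorem qual (c D ε : ℝ) (hc : 0 < c) (hD : 0 < D) (hε : 0 < ε) :
    ∃ σ : ℝ, 0 < σ ∧ ∀ᶠ n : ℕ in atTop, ∀ A : Matrix (Fin n) (Fin n) ℝ, A.det ≠ 0 →
      c * n ≤ gam A →
      ∀ S : Set (Matrix (Fin n) (Fin n) ℤ), (∀ T ∈ S, (T.rank : ℝ) ≤ σ * n) →
      (∀ T ∈ S, ∀ x : Fin n → ℝ, ∑ i, (A *ᵥ (T.map (fun z : ℤ => (z : ℝ)) *ᵥ x)) i ^ 2 ≤
        D ^ 2 * ∑ i, (A *ᵥ x) i ^ 2) →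
      (1 - ε) * n ≤ kerRank S := by
  obtain ⟨L, hL⟩ : ∃ L : ℝ, L = max 1 ((Real.log (1 / (Real.pi ^ 2 * c)) + 1) / ε) := ⟨_, rfl⟩
  have hL1 : 1 ≤ L := by rw [hL]; exact le_max_left _ _
  have hL2 : Real.log (1 / (Real.pi ^ 2 * c)) + 1 ≤ ε * L := by
    rw [← div_le_iff₀' hε, hL]
    exact le_max_right _ _
  refine ⟨Real.exp (-L) / D ^ 2, by positivity, ?_⟩
  filter_upwards [asym c (Real.exp (-L) / D ^ 2) D 1 hc (by positivity) hD one_pos] with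
    n h A hA hcA S hr hS
  have h1 := h A hA hcA S hr hS
  have e1 : Real.log (1 / (D ^ 2 * (Real.exp (-L) / D ^ 2))) = L := by
    rw [mul_div_cancel₀ _ (by positivity), one_div, ← Real.exp_neg, neg_neg, Real.log_exp]
  rw [e1] at h1
  have hn0 : (0 : ℝ) ≤ n := Nat.cast_nonneg n
  have h2 : ((n : ℝ) - kerRank S) * L ≤ (ε * n) * L :=
    h1.trans (by nlinarith [mul_le_mul_of_nonneg_right hL2 hn0])
  have h3 := le_of_mul_le_mul_right h2 (by linarith)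
  linarith

end Pool.Agent.X43.HE
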