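import Pool.Agent.X43.HE.Asy

/-!
# Automorphisms moving few dimensions
-/

set_option autoImplicit false

namespace Pool.Agent.X43.HE

open Matrix Pool.Agent.H160R3.Herm Pool.Agent.TH220.HG Filter

attribute [local instance 10] AddCommGroup.toIntModule

/-- `T` acts on the lattice `A ℤⁿ` with operator norm at most `D` -/
def NormLe {n : ℕ} (A : Matrix (Fin n) (Fin n) ℝ) (D : ℝ) (T : Matrix (Fin n) (Fin n) ℤ) : Prop :=
  ∀ x : Fin n → ℝ, ∑ i, (A *ᵥ (T.map (fun z : ℤ => (z : ℝ)) *ᵥ x)) i ^ 2 ≤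
    D ^ 2 * ∑ i, (A *ᵥ x) i ^ 2

/-- `g` is an isometry of the lattice `A ℤⁿ` -/
def Isom {n : ℕ} (A : Matrix (Fin n) (Fin n) ℝ) (g : Matrix (Fin n) (Fin n) ℤ) : Prop :=
  ∀ x : Fin n → ℝ, ∑ i, (A *ᵥ (g.map (fun z : ℤ => (z : ℝ)) *ᵥ x)) i ^ 2 =
    ∑ i, (A *ᵥ x) i ^ 2

theorem normLe_of_isom {n : ℕ} {A : Matrix (Fin n) (Fin n) ℝ} {g : Matrix (Fin n) (Fin n) ℤ}
    (h : Isom A g) : NormLe A 2 (g - 1) := by
  intro x
  have e1 : (g - 1).map (fun z : ℤ => (z : ℝ)) *ᵥ x = g.map (fun z : ℤ => (z : ℝ)) *ᵥ x - x := by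
    have : (g - 1).map (fun z : ℤ => (z : ℝ)) = g.map (fun z : ℤ => (z : ℝ)) - 1 := by
      ext i j
      rw [Matrix.map_apply, Matrix.sub_apply, Matrix.sub_apply, Matrix.map_apply]
      push_cast
      congr 1
      by_cases hij : i = j
      · subst hij; simp
      · simp [hij]
    rw [this, Matrix.sub_mulVec, Matrix.one_mulVec]
  rw [e1, Matrix.mulVec_sub]
  have h1 := h x
  calc ∑ i, (A *ᵥ (g.map (fun z : ℤ => (z : ℝ)) *ᵥ x) - A *ᵥ x) i ^ 2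
      ≤ ∑ i, (2 * (A *ᵥ (g.map (fun z : ℤ => (z : ℝ)) *ᵥ x)) i ^ 2 + 2 * (A *ᵥ x) i ^ 2) := by
        refine Finset.sum_le_sum fun i _ => ?_
        rw [Pi.sub_apply]
        nlinarith [sq_nonneg ((A *ᵥ (g.map (fun z : ℤ => (z : ℝ)) *ᵥ x)) i + (A *ᵥ x) i)]
    _ = 2 ^ 2 * ∑ i, (A *ᵥ x) i ^ 2 := by
        rw [Finset.sum_add_distrib, ← Finset.mul_sum, ← Finset.mul_sum, h1]
        ring

theorem exists_of_kerRank {n : ℕ} {S : Set (Matrix (Fin n) (Fin n) ℤ)} (h : 0 < kerRank S) :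
    ∃ v : Fin n → ℤ, v ≠ 0 ∧ ∀ T ∈ S, T *ᵥ v = 0 := by
  by_contra hcon
  push Not at hcon
  have : (⨅ T ∈ S, LinearMap.ker T.mulVecLin : Submodule ℤ (Fin n → ℤ)) = ⊥ := by
    rw [Submodule.eq_bot_iff]
    intro v hv
    by_contra hv0
    obtain ⟨T, hT, hT2⟩ := hcon v hv0
    simp only [Submodule.mem_iInf, LinearMap.mem_ker] at hv
    exact hT2 (hv T hT)
  rw [kerRank, this, finrank_bot] at h
  exact lt_irrefl _ h

theorem kerRank_eq_zero {n : ℕ} {S : Set (Matrix (Fin n) (Fin n) ℤ)}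
    (h : ∀ v : Fin n → ℤ, (∀ T ∈ S, T *ᵥ v = 0) → v = 0) : kerRank S = 0 := by
  rcases Nat.eq_zero_or_pos (kerRank S) with h0 | h0
  · exact h0
  · obtain ⟨v, hv, hv2⟩ := exists_of_kerRank h0
    exact absurd (h v hv2) hv

/-- no common kernel: `γ(L) ≤ D² max γ_u` -/
theorem full {n : ℕ} (hn : 0 < n) {A : Matrix (Fin n) (Fin n) ℝ} (hA : A.det ≠ 0)
    {D Γ : ℝ} (hD : 0 < D) (hΓ0 : 0 ≤ Γ) (s : ℕ) (hΓ : ∀ u, 1 ≤ u → u ≤ s → hermite u ≤ Γ)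
    (S : Set (Matrix (Fin n) (Fin n) ℤ)) (hr : ∀ T ∈ S, T.rank ≤ s) (hS : ∀ T ∈ S, NormLe A D T)
    (h0 : ∀ v : Fin n → ℤ, (∀ T ∈ S, T *ᵥ v = 0) → v = 0) : gam A ≤ D ^ 2 * Γ := by
  obtain ⟨-, h1⟩ := master_gam hn hA hD hΓ0 s hΓ S hr hS
  rw [kerRank_eq_zero h0, pow_zero, one_mul, Nat.sub_zero] at h1
  exact (pow_le_pow_iff_left₀ (gam_pos hn hA).le (by positivity) hn.ne').1 h1

/-- Minkowski–Hlawka level: isometries moving fewer than `π/(8e) n` dimensions have a common fixed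
vector -/
theorem mh_level (σ : ℝ) (hσ : σ < Real.pi / (8 * Real.exp 1)) :
    ∀ᶠ n : ℕ in atTop, ∀ A : Matrix (Fin n) (Fin n) ℝ, A.det ≠ 0 →
      n / (2 * Real.pi * Real.exp 1) ≤ gam A →
      ∀ G : Set (Matrix (Fin n) (Fin n) ℤ), (∀ g ∈ G, Isom A g ∧ ((g - 1).rank : ℝ) ≤ σ * n) →
      ∃ v : Fin n → ℤ, v ≠ 0 ∧ ∀ g ∈ G, g *ᵥ v = v := by
  have hpi := Real.pi_pos
  have he := Real.exp_pos 1
  -- replace `σ` by a positive number
  obtain ⟨τ, hτ0, hτσ, hτ⟩ : ∃ τ : ℝ, 0 < τ ∧ σ ≤ τ ∧ τ < Real.pi / (8 * Real.exp 1) := by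
    refine ⟨max σ (Real.pi / (8 * Real.exp 1) / 2), ?_, le_max_left _ _, max_lt hσ ?_⟩
    · exact lt_of_lt_of_le (by positivity) (le_max_right _ _)
    · exact half_lt_self (by positivity)
  obtain ⟨ε, hε⟩ : ∃ ε, ε = (Real.log (1 / (2 ^ 2 * τ)) -
    Real.log (1 / (Real.pi ^ 2 * (1 / (2 * Real.pi * Real.exp 1))))) / 2 := ⟨_, rfl⟩
  have hε0 : 0 < ε := by
    rw [hε]
    apply half_pos
    rw [sub_pos]
    apply Real.log_lt_log (by positivity)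
    rw [div_lt_div_iff₀ (by positivity) (by positivity), one_mul, one_mul]
    rw [lt_div_iff₀ (by positivity)] at hτ
    rw [mul_one_div, lt_div_iff₀ (by positivity)]
    nlinarith
  filter_upwards [asym (1 / (2 * Real.pi * Real.exp 1)) τ 2 ε (by positivity) hτ0 two_pos hε0,
    eventually_gt_atTop 0] with n h hn A hA hcA G hG
  have hn' : (0 : ℝ) < n := by exact_mod_cast hn
  have h1 := h A hA (by rw [one_div, inv_mul_eq_div]; exact hcA) ((fun g => g - 1) '' G) (by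
    rintro _ ⟨g, hg, rfl⟩
    exact ((hG g hg).2).trans (mul_le_mul_of_nonneg_right hτσ hn'.le)) (by
    rintro _ ⟨g, hg, rfl⟩
    exact normLe_of_isom (hG g hg).1)
  by_cases hk : kerRank ((fun g => g - 1) '' G) = 0
  · rw [hk, Nat.cast_zero, sub_zero, mul_comm] at h1
    have h2 := le_of_mul_le_mul_right h1 hn'
    exfalso
    linarith
  · obtain ⟨v, hv, hv2⟩ := exists_of_kerRank (Nat.pos_of_ne_zero hk)
    refine ⟨v, hv, fun g hg => ?_⟩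
    have := hv2 (g - 1) ⟨g, hg, rfl⟩
    rw [Matrix.sub_mulVec, Matrix.one_mulVec, sub_eq_zero] at this
    exact this

end Pool.Agent.X43.HE
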