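import Pool.Agent.X43.HE.Asy
import Mathlib.LinearAlgebra.Matrix.Kronecker

/-!
# Decomposable and tensor sublattices
-/

set_option autoImplicit false

namespace Pool.Agent.X43.HE

open Matrix Pool.Agent.H160R3.Herm Pool.Agent.TH220.HG Filter
open scoped Kronecker

/-- Gram matrix of the basis `A N` of the sublattice `A N ℤⁿ` of `A ℤⁿ` -/
noncomputable def subGram {n : ℕ} (A : Matrix (Fin n) (Fin n) ℝ) (N : Matrix (Fin n) (Fin n) ℤ) :
    Matrix (Fin n) (Fin n) ℝ :=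
  (A * N.map (fun z : ℤ => (z : ℝ)))ᵀ * (A * N.map (fun z : ℤ => (z : ℝ)))

theorem det_map {n : ℕ} (N : Matrix (Fin n) (Fin n) ℤ) :
    (N.map (fun z : ℤ => (z : ℝ))).det = (N.det : ℝ) := by
  have := (Int.castRingHom ℝ).map_det N
  rw [RingHom.mapMatrix_apply] at this
  exact this.symm

theorem det_subGram {n : ℕ} (A : Matrix (Fin n) (Fin n) ℝ) (N : Matrix (Fin n) (Fin n) ℤ) :
    (subGram A N).det = A.det ^ 2 * (N.det : ℝ) ^ 2 := by
  rw [subGram, Matrix.det_mul, Matrix.det_transpose, Matrix.det_mul, det_map]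
  ring

theorem quad {m n : ℕ} (M : Matrix (Fin m) (Fin n) ℝ) (y : Fin n → ℝ) :
    ∑ i, (M *ᵥ y) i ^ 2 = ∑ p, ∑ q, y p * ((Mᵀ * M) p q * y q) := by
  have h1 : ∑ i, (M *ᵥ y) i ^ 2 = y ⬝ᵥ ((Mᵀ * M) *ᵥ y) := by
    rw [← Matrix.mulVec_mulVec, Matrix.dotProduct_mulVec, Matrix.vecMul_transpose]
    exact Finset.sum_congr rfl fun i _ => sq _
  rw [h1, dotProduct]
  refine Finset.sum_congr rfl fun i _ => ?_
  rw [Matrix.mulVec, dotProduct, Finset.mul_sum]

theorem det_bd {t : ℕ} (d : Fin t → ℕ) (M : ∀ β, Matrix (Fin (d β)) (Fin (d β)) ℝ) :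
    (Matrix.blockDiagonal' M).det = ∏ β, (M β).det := by
  rw [(Matrix.blockTriangular_blockDiagonal' M).det_fintype]
  refine Finset.prod_congr rfl fun β _ => ?_
  obtain ⟨e, he⟩ : ∃ e : Fin (d β) ≃ {a : (Σ β, Fin (d β)) // a.1 = β}, ∀ i,
      (e i : (Σ β, Fin (d β))) = ⟨β, i⟩ := by
    refine ⟨⟨fun i => ⟨⟨β, i⟩, rfl⟩, fun a => a.2 ▸ a.1.2, fun i => rfl, ?_⟩, fun i => rfl⟩
    rintro ⟨⟨γ, i⟩, rfl⟩
    rfl
  rw [← Matrix.det_submatrix_equiv_self e]
  congr 1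
  ext i j
  rw [Matrix.submatrix_apply, Matrix.toSquareBlock_def, Matrix.of_apply, he, he,
    Matrix.blockDiagonal'_apply_eq]

/-- the minimum is at most every nonzero value of the form on the sublattice -/
theorem min_le_form {n : ℕ} (A : Matrix (Fin n) (Fin n) ℝ) {N : Matrix (Fin n) (Fin n) ℤ}
    (hN : N.det ≠ 0) {ι : Type} [Fintype ι] (e : ι ≃ Fin n) (w : ι → ℤ) (hw : w ≠ 0) :
    minSq A ≤ ∑ p, ∑ q, (w p : ℝ) * (subGram A N (e p) (e q) * (w q : ℝ)) := by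
  obtain ⟨x, hx⟩ : ∃ x : Fin n → ℤ, x = fun i => w (e.symm i) := ⟨_, rfl⟩
  have hx0 : x ≠ 0 := by
    intro h0
    apply hw
    funext p
    have := congrFun h0 (e p)
    rw [hx] at this
    simpa using this
  have hNx : N *ᵥ x ≠ 0 := by
    intro h0
    exact hx0 (Matrix.eq_zero_of_mulVec_eq_zero hN h0)
  refine (minSq_le A _ hNx).trans (le_of_eq ?_)
  obtain ⟨N', hN'⟩ : ∃ N' : Matrix (Fin n) (Fin n) ℝ, N' = N.map (fun z : ℤ => (z : ℝ)) :=
    ⟨_, rfl⟩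
  obtain ⟨y, hy⟩ : ∃ y : Fin n → ℝ, y = fun i => (x i : ℝ) := ⟨_, rfl⟩
  have h1 : (fun j => ((N *ᵥ x) j : ℝ)) = N' *ᵥ y := by
    funext j
    rw [hN', hy]
    simp [Matrix.mulVec, dotProduct]
  rw [h1, Matrix.mulVec_mulVec]
  have h3 : (A * N')ᵀ * (A * N') = subGram A N := by rw [hN']; rfl
  rw [quad, h3, ← Equiv.sum_comp e]
  refine Finset.sum_congr rfl fun p _ => ?_
  rw [← Equiv.sum_comp e]
  refine Finset.sum_congr rfl fun q _ => ?_
  rw [hy, hx]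
  simp

/-- orthogonal sums -/
theorem orth_min {n t : ℕ} (A : Matrix (Fin n) (Fin n) ℝ) {N : Matrix (Fin n) (Fin n) ℤ}
    (hN : N.det ≠ 0) (d : Fin t → ℕ) (B : ∀ β, Matrix (Fin (d β)) (Fin (d β)) ℝ)
    (e : (Σ β, Fin (d β)) ≃ Fin n)
    (h : (subGram A N).submatrix e e = Matrix.blockDiagonal' fun β => (B β)ᵀ * B β) (β : Fin t)
    (hd : 0 < d β) : minSq A ≤ minSq (B β) := by
  refine le_minSq hd (B β) _ fun u hu => ?_
  obtain ⟨w, hw⟩ : ∃ w : (Σ β, Fin (d β)) → ℤ, w = fun p => (Pi.single β u :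
    (γ : Fin t) → Fin (d γ) → ℤ) p.1 p.2 := ⟨_, rfl⟩
  have hwβ : ∀ i, w ⟨β, i⟩ = u i := by
    intro i
    rw [hw]
    simp
  have hwne : ∀ γ i, γ ≠ β → w ⟨γ, i⟩ = 0 := by
    intro γ i hγ
    rw [hw]
    simp [Pi.single_eq_of_ne hγ]
  have hw0 : w ≠ 0 := by
    intro h0
    apply hu
    funext i
    rw [← hwβ, h0]
    rfl
  refine (min_le_form A hN e w hw0).trans (le_of_eq ?_)
  have h2 : ∀ p q, subGram A N (e p) (e q) =
      Matrix.blockDiagonal' (fun β => (B β)ᵀ * B β) p q := by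
    intro p q
    rw [← h]
    rfl
  simp only [h2]
  rw [Fintype.sum_sigma, Finset.sum_eq_single β]
  · have h3 : ∀ i, ∑ q : (Σ β, Fin (d β)), (w ⟨β, i⟩ : ℝ) *
        (Matrix.blockDiagonal' (fun β => (B β)ᵀ * B β) ⟨β, i⟩ q * (w q : ℝ)) =
        ∑ j, (u i : ℝ) * (((B β)ᵀ * B β) i j * (u j : ℝ)) := by
      intro i
      rw [Fintype.sum_sigma, Finset.sum_eq_single β]
      · refine Finset.sum_congr rfl fun j _ => ?_
        rw [Matrix.blockDiagonal'_apply_eq, hwβ, hwβ]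
      · intro γ _ hγ
        refine Finset.sum_eq_zero fun j _ => ?_
        rw [hwne γ j hγ]
        simp
      · intro h0
        exact absurd (Finset.mem_univ _) h0
    simp only [h3]
    rw [quad]
  · intro γ _ hγ
    refine Finset.sum_eq_zero fun j _ => Finset.sum_eq_zero fun q _ => ?_
    rw [hwne γ j hγ]
    simp
  · intro h0
    exact absurd (Finset.mem_univ _) h0

theorem orth_gam {n t : ℕ} (hn : 0 < n) {A : Matrix (Fin n) (Fin n) ℝ} (hA : A.det ≠ 0)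
    {N : Matrix (Fin n) (Fin n) ℤ}
    (hN : N.det ≠ 0) (d : Fin t → ℕ) (B : ∀ β, Matrix (Fin (d β)) (Fin (d β)) ℝ)
    (e : (Σ β, Fin (d β)) ≃ Fin n)
    (h : (subGram A N).submatrix e e = Matrix.blockDiagonal' fun β => (B β)ᵀ * B β) :
    (∀ β, (B β).det ≠ 0) ∧ gam A ^ n ≤ (N.det : ℝ) ^ 2 * ∏ β, gam (B β) ^ d β := by
  have hN' : (N.det : ℝ) ≠ 0 := by exact_mod_cast hN
  have hdet : A.det ^ 2 * (N.det : ℝ) ^ 2 = ∏ β, (B β).det ^ 2 := by
    rw [← det_subGram, ← Matrix.det_submatrix_equiv_self e, h, det_bd]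
    refine Finset.prod_congr rfl fun β _ => ?_
    rw [Matrix.det_mul, Matrix.det_transpose, sq]
  have hB : ∀ β, (B β).det ≠ 0 := by
    intro β h0
    have : ∏ β, (B β).det ^ 2 = 0 :=
      Finset.prod_eq_zero (Finset.mem_univ β) (by rw [h0]; norm_num)
    rw [this] at hdet
    have h1 : A.det ^ 2 * (N.det : ℝ) ^ 2 ≠ 0 := mul_ne_zero (pow_ne_zero _ hA) (pow_ne_zero _ hN')
    exact h1 hdet
  refine ⟨hB, ?_⟩
  have hcard : n = ∑ β, d β := by
    have := Fintype.card_congr e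
    rw [Fintype.card_sigma] at this
    simpa using this.symm
  have hm0 := minSq_nonneg A
  have h1 : ∀ β, minSq A ^ d β ≤ gam (B β) ^ d β * (B β).det ^ 2 := by
    intro β
    rcases Nat.eq_zero_or_pos (d β) with h0 | h0
    · have : IsEmpty (Fin (d β)) := by rw [h0]; infer_instance
      have h5 : (B β).det = 1 := Matrix.det_isEmpty
      have h6 : ∀ x : ℝ, x ^ d β = 1 := fun x => by rw [h0, pow_zero]
      rw [h5, h6, h6]
      norm_num
    · rw [gam_pow h0 (hB β), div_mul_cancel₀ _ (pow_ne_zero _ (hB β))]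
      exact pow_le_pow_left₀ hm0 (orth_min A hN d B e h β h0) _
  have h2 : minSq A ^ n ≤ ∏ β, (gam (B β) ^ d β * (B β).det ^ 2) := by
    calc minSq A ^ n = ∏ β, minSq A ^ d β := by
          rw [Finset.prod_pow_eq_pow_sum, ← hcard]
      _ ≤ _ := Finset.prod_le_prod (fun β _ => by positivity) fun β _ => h1 β
  rw [Finset.prod_mul_distrib, ← hdet] at h2
  have hd : 0 < A.det ^ 2 := by positivity
  rw [gam_pow hn hA, div_le_iff₀ hd]
  calc minSq A ^ n ≤ _ := h2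
    _ = _ := by ring

/-- tensor products -/
theorem tensor_min {n m k : ℕ} (hm : 0 < m) (hk : 0 < k) (A : Matrix (Fin n) (Fin n) ℝ)
    {N : Matrix (Fin n) (Fin n) ℤ} (hN : N.det ≠ 0) {B : Matrix (Fin m) (Fin m) ℝ}
    (hB : B.det ≠ 0) {C : Matrix (Fin k) (Fin k) ℝ} (hC : C.det ≠ 0) (e : Fin m × Fin k ≃ Fin n)
    (h : (subGram A N).submatrix e e = (Bᵀ * B) ⊗ₖ (Cᵀ * C)) :
    minSq A ≤ minSq B * minSq C := by
  obtain ⟨u, hu, hu2⟩ := exists_min hm hB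
  obtain ⟨v, hv, hv2⟩ := exists_min hk hC
  have hw0 : (fun p : Fin m × Fin k => u p.1 * v p.2) ≠ 0 := by
    intro h0
    obtain ⟨i, hi⟩ := Function.ne_iff.1 hu
    obtain ⟨j, hj⟩ := Function.ne_iff.1 hv
    have := congrFun h0 (i, j)
    exact mul_ne_zero hi hj this
  refine (min_le_form A hN e _ hw0).trans (le_of_eq ?_)
  have h2 : ∀ p q, subGram A N (e p) (e q) = ((Bᵀ * B) ⊗ₖ (Cᵀ * C)) p q := by
    intro p q
    rw [← h]
    rfl
  have hf : ∀ {l : ℕ} (M : Matrix (Fin l) (Fin l) ℝ) (x : Fin l → ℤ), nsq M x =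
      ∑ i, ∑ j, (x i : ℝ) * ((Mᵀ * M) i j * (x j : ℝ)) := by
    intro l M x
    rw [nsq, quad]
  rw [← hu2, ← hv2, hf, hf]
  simp only [h2, Fintype.sum_prod_type, Matrix.kroneckerMap_apply]
  rw [Finset.sum_mul]
  refine Finset.sum_congr rfl fun i _ => ?_
  rw [Finset.mul_sum]
  refine Finset.sum_congr rfl fun j _ => ?_
  rw [Finset.sum_mul]
  refine Finset.sum_congr rfl fun i' _ => ?_
  rw [Finset.mul_sum]
  refine Finset.sum_congr rfl fun j' _ => ?_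
  push_cast
  ring

theorem tensor_gam {n m k : ℕ} (hm : 0 < m) (hk : 0 < k) {A : Matrix (Fin n) (Fin n) ℝ}
    (hA : A.det ≠ 0) {N : Matrix (Fin n) (Fin n) ℤ} (hN : N.det ≠ 0)
    (B : Matrix (Fin m) (Fin m) ℝ) (C : Matrix (Fin k) (Fin k) ℝ) (e : Fin m × Fin k ≃ Fin n)
    (h : (subGram A N).submatrix e e = (Bᵀ * B) ⊗ₖ (Cᵀ * C)) :
    B.det ≠ 0 ∧ C.det ≠ 0 ∧ gam A ^ n ≤ (N.det : ℝ) ^ 2 * (gam B * gam C) ^ n := by
  have hN' : (N.det : ℝ) ≠ 0 := by exact_mod_cast hN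
  have hcard : m * k = n := by
    have := Fintype.card_congr e
    simpa using this
  have hn : 0 < n := by rw [← hcard]; positivity
  have hdet : A.det ^ 2 * (N.det : ℝ) ^ 2 = (B.det ^ 2) ^ k * (C.det ^ 2) ^ m := by
    rw [← det_subGram, ← Matrix.det_submatrix_equiv_self e, h, Matrix.det_kronecker,
      Matrix.det_mul, Matrix.det_transpose, Matrix.det_mul, Matrix.det_transpose,
      Fintype.card_fin, Fintype.card_fin, sq, sq]
  have hne : (B.det ^ 2) ^ k * (C.det ^ 2) ^ m ≠ 0 := by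
    rw [← hdet]
    exact mul_ne_zero (pow_ne_zero _ hA) (pow_ne_zero _ hN')
  have hB : B.det ≠ 0 := by
    intro h0
    apply hne
    rw [h0, zero_pow two_ne_zero, zero_pow hk.ne', zero_mul]
  have hC : C.det ≠ 0 := by
    intro h0
    apply hne
    rw [h0, zero_pow two_ne_zero, zero_pow hm.ne', mul_zero]
  refine ⟨hB, hC, ?_⟩
  have hm0 := minSq_nonneg A
  have h1 := tensor_min hm hk A hN hB hC e h
  have hd : 0 < A.det ^ 2 := by positivity
  have e1 : gam B ^ n = minSq B ^ n / (B.det ^ 2) ^ k := by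
    rw [← hcard, pow_mul, gam_pow hm hB, div_pow, ← pow_mul, pow_mul]
  have e2 : gam C ^ n = minSq C ^ n / (C.det ^ 2) ^ m := by
    rw [← hcard, mul_comm m k, pow_mul, gam_pow hk hC, div_pow, ← pow_mul, pow_mul]
  rw [gam_pow hn hA, div_le_iff₀ hd, mul_pow, e1, e2]
  have hBd : 0 < (B.det ^ 2) ^ k := by positivity
  have hCd : 0 < (C.det ^ 2) ^ m := by positivity
  calc minSq A ^ n ≤ (minSq B * minSq C) ^ n := pow_le_pow_left₀ hm0 h1 n
    _ = (A.det ^ 2 * (N.det : ℝ) ^ 2) * (minSq B ^ n / (B.det ^ 2) ^ k *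
        (minSq C ^ n / (C.det ^ 2) ^ m)) := by
        rw [hdet, mul_pow]
        field_simp
    _ = _ := by ring

end Pool.Agent.X43.HE
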