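import Pool.Agent.X43.HE.Asy
import Mathlib.MeasureTheory.Measure.Lebesgue.VolumeOfBalls

/-!
# `γ_m ≤ m / √3` for `m ≥ 2`
-/

set_option autoImplicit false

namespace Pool.Agent.X43.HE

open Matrix Pool.Agent.H160R3.Herm Pool.Agent.TH220.HG Filter MeasureTheory Metric

/-- Minkowski's theorem for the Euclidean ball -/
theorem ball_mink {n : ℕ} (hn : 0 < n) (A : Matrix (Fin n) (Fin n) ℝ) (hA : A.det ≠ 0) (r : ℝ)
    (hr : 0 ≤ r) (h : 2 ^ n * |A.det| ≤ r ^ n * (√Real.pi ^ n / Real.Gamma (n / 2 + 1))) :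
    ∃ w : Fin n → ℤ, w ≠ 0 ∧ ∑ i, (A *ᵥ (fun j => (w j : ℝ))) i ^ 2 ≤ r ^ 2 := by
  classical
  have hne : Nonempty (Fin n) := ⟨⟨0, hn⟩⟩
  have hnt : Nontrivial (Fin n → ℝ) := Function.nontrivial
  set b := Pi.basisFun ℝ (Fin n) with hb
  set L : AddSubgroup (Fin n → ℝ) := (Submodule.span ℤ (Set.range b)).toAddSubgroup with hL
  have fund : IsAddFundamentalDomain L (ZSpan.fundamentalDomain b) volume :=
    ZSpan.isAddFundamentalDomain' b volume
  have hvol : volume (ZSpan.fundamentalDomain b) = 1 := by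
    rw [ZSpan.volume_fundamentalDomain]
    have : (Matrix.of b) = (1 : Matrix (Fin n) (Fin n) ℝ) := by
      ext i j
      simp [hb, Matrix.one_apply, Pi.single_apply, eq_comm]
    rw [this]
    simp
  set f : (Fin n → ℝ) →ₗ[ℝ] (Fin n → ℝ) := Matrix.toLin' A⁻¹ with hf
  have hdet : IsUnit A.det := isUnit_iff_ne_zero.mpr hA
  have hfdet : LinearMap.det f = (A.det)⁻¹ := by
    rw [hf, LinearMap.det_toLin', Matrix.det_nonsing_inv, Ring.inverse_eq_inv']
  set g : EuclideanSpace ℝ (Fin n) →ₗ[ℝ] (Fin n → ℝ) :=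
    (WithLp.linearEquiv 2 ℝ (Fin n → ℝ)).toLinearMap with hg
  set s₀ : Set (Fin n → ℝ) := {x : Fin n → ℝ | (∑ i, |x i| ^ (2 : ℝ)) ^ (1 / (2 : ℝ)) ≤ r} with hs₀
  have hs₀g : s₀ = g '' closedBall 0 r := by
    ext y
    constructor
    · intro hy
      refine ⟨WithLp.toLp 2 y, ?_, rfl⟩
      rw [mem_closedBall_zero_iff, EuclideanSpace.norm_eq, Real.sqrt_eq_rpow]
      refine le_trans (le_of_eq ?_) hy
      congr 1
      refine Finset.sum_congr rfl fun i _ => ?_
      rw [Real.norm_eq_abs, Real.rpow_two]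
    · rintro ⟨x, hx, rfl⟩
      rw [mem_closedBall_zero_iff, EuclideanSpace.norm_eq, Real.sqrt_eq_rpow] at hx
      refine le_trans (le_of_eq ?_) hx
      congr 1
      refine Finset.sum_congr rfl fun i _ => ?_
      rw [Real.norm_eq_abs, Real.rpow_two]
      rfl
  set s : Set (Fin n → ℝ) := f '' s₀ with hs
  have h_symm : ∀ x ∈ s, -x ∈ s := by
    rintro _ ⟨y, hy, rfl⟩
    refine ⟨-y, ?_, by simp⟩
    rw [hs₀, Set.mem_ofPred_eq] at hy ⊢
    simpa using hy
  have h_conv : Convex ℝ s := by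
    rw [hs, hs₀g]
    exact ((convex_closedBall 0 r).linear_image g).linear_image f
  have h_cpt : IsCompact s := by
    rw [hs, hs₀g]
    exact ((isCompact_closedBall 0 r).image (LinearMap.continuous_of_finiteDimensional g)).image
      (LinearMap.continuous_of_finiteDimensional f)
  have hG : 0 < Real.Gamma ((n : ℝ) / 2 + 1) := Real.Gamma_pos_of_pos (by positivity)
  have hμ : volume s = ENNReal.ofReal (|A.det|⁻¹ *
      (r ^ n * (√Real.pi ^ n / Real.Gamma (n / 2 + 1)))) := by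
    have hgam : 2 * Real.Gamma (1 / (2 : ℝ) + 1) = √Real.pi := by
      rw [Real.Gamma_add_one (by norm_num), Real.Gamma_one_half_eq]
      ring
    rw [hs, Measure.addHaar_image_linearMap, hfdet, hs₀,
      MeasureTheory.volume_sum_rpow_le (Fin n) (by norm_num : (1 : ℝ) ≤ 2) r, Fintype.card_fin,
      ← ENNReal.ofReal_pow hr, ← ENNReal.ofReal_mul (by positivity),
      ← ENNReal.ofReal_mul (abs_nonneg _), abs_inv, hgam]
  have hcov : volume (ZSpan.fundamentalDomain b) * 2 ^ (Module.finrank ℝ (Fin n → ℝ)) ≤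
      volume s := by
    rw [hvol, one_mul, hμ, Module.finrank_fin_fun]
    have h2 : (2 : ENNReal) ^ n = ENNReal.ofReal (2 ^ n) := by
      rw [ENNReal.ofReal_pow (by norm_num)]; simp
    rw [h2]
    apply ENNReal.ofReal_le_ofReal
    rw [inv_mul_eq_div, le_div_iff₀ (abs_pos.mpr hA)]
    exact h
  have hcount : Countable L :=
    inferInstanceAs (Countable (Submodule.span ℤ (Set.range b)))
  have hdisc : DiscreteTopology L :=
    inferInstanceAs (DiscreteTopology (Submodule.span ℤ (Set.range b)))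
  obtain ⟨x, hx0, hx⟩ := exists_ne_zero_mem_lattice_of_measure_mul_two_pow_le_measure
    fund h_symm h_conv h_cpt hcov
  obtain ⟨y, hy, hyx⟩ := hx
  have hxL : (x : Fin n → ℝ) ∈ Submodule.span ℤ (Set.range b) := x.2
  rw [b.mem_span_iff_repr_mem ℤ] at hxL
  choose w hw using hxL
  have hxw : (x : Fin n → ℝ) = fun j => (w j : ℝ) := by
    ext j
    have := hw j
    simp [hb] at this
    exact this.symm
  refine ⟨w, ?_, ?_⟩
  · rintro rfl
    apply hx0
    apply Subtype.ext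
    rw [hxw]
    ext j
    simp
  · have hAx : A *ᵥ (x : Fin n → ℝ) = y := by
      rw [← hyx, hf, Matrix.toLin'_apply, Matrix.mulVec_mulVec, Matrix.mul_nonsing_inv _ hdet,
        Matrix.one_mulVec]
    rw [← hxw, hAx]
    rw [hs₀, Set.mem_ofPred_eq] at hy
    have hS : 0 ≤ ∑ i, |y i| ^ (2 : ℝ) := Finset.sum_nonneg fun i _ => by positivity
    have h1 := pow_le_pow_left₀ (Real.rpow_nonneg hS _) hy 2
    rw [← Real.rpow_natCast, ← Real.rpow_mul hS] at h1
    norm_num at h1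
    exact h1

theorem gamma_le (n : ℕ) (hn : 2 ≤ n) :
    Real.Gamma ((n : ℝ) / 2 + 1) ≤ (√((n : ℝ) + 2) / 2) ^ n := by
  induction n using Nat.twoStepInduction with
  | zero => omega
  | one => omega
  | more n ih _ =>
    rcases Nat.lt_or_ge n 2 with h | h
    · interval_cases n
      · norm_num
      · have e1 : Real.Gamma (((1 + 2 : ℕ) : ℝ) / 2 + 1) = 3 * √Real.pi / 4 := by
          have : (((1 + 2 : ℕ) : ℝ) / 2 + 1) = (1 / 2 + 1) + 1 := by norm_num
          rw [this, Real.Gamma_add_one (by norm_num), Real.Gamma_add_one (by norm_num),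
            Real.Gamma_one_half_eq]
          ring
        rw [e1]
        have h5 : (((1 + 2 : ℕ) : ℝ) + 2) = 5 := by norm_num
        rw [h5]
        have hs5 : √(5 : ℝ) ^ 2 = 5 := Real.sq_sqrt (by norm_num)
        have e2 : (√(5 : ℝ) / 2) ^ (1 + 2) = 5 * √5 / 8 := by
          have : (√(5 : ℝ) / 2) ^ (1 + 2) = √5 ^ 2 * √5 / 8 := by ring
          rw [this, hs5]
        rw [e2]
        have h6 : 6 * √Real.pi ≤ 5 * √5 := by
          have h7 : (6 * √Real.pi) ^ 2 ≤ (5 * √5) ^ 2 := by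
            rw [mul_pow, mul_pow, Real.sq_sqrt Real.pi_pos.le, hs5]
            have := Real.pi_lt_d2
            linarith
          exact (pow_le_pow_iff_left₀ (by positivity) (by positivity) two_ne_zero).1 h7
        linarith
    · have ih' := ih h
      have hn0 : (0 : ℝ) < n := by
        have : 0 < n := by omega
        exact_mod_cast this
      have e1 : Real.Gamma (((n + 2 : ℕ) : ℝ) / 2 + 1) =
          ((n : ℝ) / 2 + 1) * Real.Gamma ((n : ℝ) / 2 + 1) := by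
        have : (((n + 2 : ℕ) : ℝ) / 2 + 1) = ((n : ℝ) / 2 + 1) + 1 := by push_cast; ring
        rw [this, Real.Gamma_add_one (by positivity)]
      rw [e1]
      have hb := one_add_mul_self_le_rpow_one_add (s := 2 / ((n : ℝ) + 2)) (by
        have : 0 < 2 / ((n : ℝ) + 2) := by positivity
        linarith) (p := ((n : ℝ) + 2) / 2) (by linarith)
      have e2 : 1 + ((n : ℝ) + 2) / 2 * (2 / ((n : ℝ) + 2)) = 2 := by
        field_simp
        ring
      rw [e2] at hb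
      have e3 : 1 + 2 / ((n : ℝ) + 2) = ((n : ℝ) + 4) / (n + 2) := by
        field_simp
        ring
      rw [e3] at hb
      have hx0 : 0 ≤ ((n : ℝ) + 4) / (n + 2) := by positivity
      have e4 : (((n : ℝ) + 4) / (n + 2)) ^ (((n : ℝ) + 2) / 2) =
          (√((n : ℝ) + 4) / √(n + 2)) ^ (n + 2) := by
        rw [← Real.sqrt_div (by positivity), Real.sqrt_eq_rpow, ← Real.rpow_natCast,
          ← Real.rpow_mul hx0]
        congr 1
        push_cast
        ring
      rw [e4] at hb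
      have hs2 : 0 < √((n : ℝ) + 2) := Real.sqrt_pos.2 (by positivity)
      rw [div_pow, le_div_iff₀ (by positivity)] at hb
      have hsq : √((n : ℝ) + 2) ^ 2 = n + 2 := Real.sq_sqrt (by positivity)
      calc ((n : ℝ) / 2 + 1) * Real.Gamma ((n : ℝ) / 2 + 1)
          ≤ ((n : ℝ) / 2 + 1) * (√((n : ℝ) + 2) / 2) ^ n :=
            mul_le_mul_of_nonneg_left ih' (by positivity)
        _ = 2 * √((n : ℝ) + 2) ^ (n + 2) / 2 ^ (n + 2) := by
            rw [pow_add, hsq, pow_add, div_pow]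
            field_simp
        _ ≤ √((n : ℝ) + 4) ^ (n + 2) / 2 ^ (n + 2) := by
            apply div_le_div_of_nonneg_right hb (by positivity)
        _ = (√(((n + 2 : ℕ) : ℝ) + 2) / 2) ^ (n + 2) := by
            have e5 : (((n + 2 : ℕ) : ℝ) + 2) = n + 4 := by push_cast; ring
            rw [e5, div_pow]

/-- `γ_n ≤ (n + 2) / π` -/
theorem hermite_mink {n : ℕ} (hn : 2 ≤ n) : hermite n ≤ (n + 2) / Real.pi := by
  have hn1 : 0 < n := by omega
  have hn' : (0 : ℝ) < n := by exact_mod_cast hn1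
  have hpi := Real.pi_pos
  have : Nonempty {A : Matrix (Fin n) (Fin n) ℝ // A.det ≠ 0} := ⟨⟨1, by simp⟩⟩
  refine ciSup_le fun A => ?_
  obtain ⟨A, hA⟩ := A
  show minSq A / |A.det| ^ ((2 : ℝ) / (n : ℝ)) ≤ _
  have hd : 0 < |A.det| := abs_pos.mpr hA
  set q := |A.det| ^ ((1 : ℝ) / n) with hq
  have hq0 : 0 ≤ q := by positivity
  have hqn : q ^ n = |A.det| := by
    rw [hq, ← Real.rpow_natCast, ← Real.rpow_mul hd.le]
    field_simp
    simp
  have hq2 : q ^ 2 = |A.det| ^ ((2 : ℝ) / n) := by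
    rw [hq, ← Real.rpow_natCast, ← Real.rpow_mul hd.le]
    congr 1
    push_cast
    ring
  have hG : 0 < Real.Gamma ((n : ℝ) / 2 + 1) := Real.Gamma_pos_of_pos (by positivity)
  obtain ⟨w, hw, hwr⟩ := ball_mink hn1 A hA (q * (√((n : ℝ) + 2) / √Real.pi)) (by positivity) (by
    rw [mul_pow, hqn, div_pow, mul_comm (2 ^ n), mul_assoc]
    refine mul_le_mul_of_nonneg_left ?_ hd.le
    have hsp : 0 < √Real.pi := Real.sqrt_pos.2 hpi
    have e1 : √((n : ℝ) + 2) ^ n / √Real.pi ^ n * (√Real.pi ^ n / Real.Gamma (n / 2 + 1)) =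
        √((n : ℝ) + 2) ^ n / Real.Gamma (n / 2 + 1) := by
      field_simp
    rw [e1, le_div_iff₀ hG]
    have h1 := gamma_le n hn
    rw [div_pow, le_div_iff₀ (by positivity)] at h1
    linarith)
  rw [div_le_iff₀ (by positivity), ← hq2]
  refine (minSq_le A w hw).trans (hwr.trans (le_of_eq ?_))
  rw [mul_pow, div_pow, Real.sq_sqrt (by positivity), Real.sq_sqrt hpi.le]
  ring

/-- `γ_2² ≤ 4/3` -/
theorem herm_two (A : Matrix (Fin 2) (Fin 2) ℝ) (hA : A.det ≠ 0) :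
    minSq A ^ 2 ≤ 4 / 3 * A.det ^ 2 := by
  obtain ⟨w, hw, hw2⟩ := exists_min two_pos hA
  have hpos := minSq_pos two_pos hA
  set l := minSq A with hl
  have hval : ∀ x : Fin 2 → ℤ, nsq A x = (A 0 0 * x 0 + A 0 1 * x 1) ^ 2 +
      (A 1 0 * x 0 + A 1 1 * x 1) ^ 2 := by
    intro x
    rw [nsq, Fin.sum_univ_two]
    simp [Matrix.mulVec, dotProduct, Fin.sum_univ_two]
  have hle : ∀ x : Fin 2 → ℤ, x ≠ 0 → l ≤ nsq A x := fun x hx => minSq_le A x hx
  -- `w` is primitive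
  have hco : IsCoprime (w 0) (w 1) := by
    rw [Int.isCoprime_iff_gcd_eq_one]
    by_contra hg
    obtain ⟨g, hg'⟩ : ∃ g : ℤ, g = Int.gcd (w 0) (w 1) := ⟨_, rfl⟩
    obtain ⟨a, ha⟩ : g ∣ w 0 := by rw [hg']; exact Int.gcd_dvd_left ..
    obtain ⟨b, hb⟩ : g ∣ w 1 := by rw [hg']; exact Int.gcd_dvd_right ..
    have hab : (![a, b] : Fin 2 → ℤ) ≠ 0 := by
      intro h0
      apply hw
      have h1 := congrFun h0 0
      have h2 := congrFun h0 1
      simp at h1 h2
      funext i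
      fin_cases i
      · simp [ha, h1]
      · simp [hb, h2]
    have hg0 : Int.gcd (w 0) (w 1) ≠ 0 := by
      intro h0
      rw [Int.gcd_eq_zero_iff] at h0
      apply hw
      funext i
      fin_cases i
      · exact h0.1
      · exact h0.2
    have hg2 : (2 : ℝ) ≤ g := by
      rw [hg']
      have : 2 ≤ Int.gcd (w 0) (w 1) := by omega
      exact_mod_cast this
    have h3 := hle _ hab
    have h4 : nsq A w = (g : ℝ) ^ 2 * nsq A ![a, b] := by
      have h40 : ((![a, b] : Fin 2 → ℤ) 0) = a := rfl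
      have h41 : ((![a, b] : Fin 2 → ℤ) 1) = b := rfl
      rw [hval, hval, h40, h41, ha, hb]
      push_cast
      ring
    rw [hw2] at h4
    have hN : 0 < nsq A ![a, b] := lt_of_lt_of_le hpos h3
    have hg4 : (4 : ℝ) ≤ (g : ℝ) ^ 2 := by nlinarith
    nlinarith [mul_le_mul_of_nonneg_right hg4 hN.le]
  obtain ⟨a, b, hab⟩ := hco
  -- the vector `(-b, a)`
  obtain ⟨P0, hP0⟩ : ∃ x, x = A 0 0 * w 0 + A 0 1 * w 1 := ⟨_, rfl⟩
  obtain ⟨P1, hP1⟩ : ∃ x, x = A 1 0 * w 0 + A 1 1 * w 1 := ⟨_, rfl⟩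
  obtain ⟨Q0, hQ0⟩ : ∃ x, x = A 0 0 * (-b : ℤ) + A 0 1 * a := ⟨_, rfl⟩
  obtain ⟨Q1, hQ1⟩ : ∃ x, x = A 1 0 * (-b : ℤ) + A 1 1 * a := ⟨_, rfl⟩
  have hP : P0 ^ 2 + P1 ^ 2 = l := by rw [hP0, hP1, ← hval, hw2]
  obtain ⟨t, ht⟩ : ∃ t, t = (P0 * Q0 + P1 * Q1) / l := ⟨_, rfl⟩
  have hu := abs_sub_round t
  obtain ⟨k, hk⟩ : ∃ k : ℤ, k = round t := ⟨_, rfl⟩
  rw [← hk] at hu
  have hu' : (![(-b) - k * w 0, a - k * w 1] : Fin 2 → ℤ) ≠ 0 := by
    intro h0
    have h1 := congrFun h0 0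
    have h2 := congrFun h0 1
    simp at h1 h2
    have : a * w 0 + b * w 1 = 0 := by
      have h3 : b = - (k * w 0) := by linarith
      have h4 : a = k * w 1 := by linarith
      rw [h3, h4]
      ring
    rw [hab] at this
    exact one_ne_zero this
  have h5 := hle _ hu'
  rw [hval] at h5
  have h6 : (A 0 0 * ((![(-b) - k * w 0, a - k * w 1] : Fin 2 → ℤ) 0 : ℤ) +
      A 0 1 * ((![(-b) - k * w 0, a - k * w 1] : Fin 2 → ℤ) 1 : ℤ)) = Q0 - k * P0 := by
    simp [hQ0, hP0]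
    ring
  have h7 : (A 1 0 * ((![(-b) - k * w 0, a - k * w 1] : Fin 2 → ℤ) 0 : ℤ) +
      A 1 1 * ((![(-b) - k * w 0, a - k * w 1] : Fin 2 → ℤ) 1 : ℤ)) = Q1 - k * P1 := by
    simp [hQ1, hP1]
    ring
  rw [h6, h7] at h5
  have hdet : P0 * Q1 - P1 * Q0 = A.det := by
    rw [Matrix.det_fin_two, hP0, hP1, hQ0, hQ1]
    have : (a : ℝ) * w 0 + b * w 1 = 1 := by exact_mod_cast hab
    push_cast
    linear_combination (A 0 0 * A 1 1 - A 0 1 * A 1 0) * this
  have h8 : P0 * Q0 + P1 * Q1 = t * l := by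
    rw [ht, div_mul_cancel₀ _ hpos.ne']
  have h9 : l * ((Q0 - k * P0) ^ 2 + (Q1 - k * P1) ^ 2) = A.det ^ 2 + ((t - k) * l) ^ 2 := by
    rw [← hdet]
    have e1 : (t - k) * l = P0 * (Q0 - k * P0) + P1 * (Q1 - k * P1) := by
      rw [sub_mul, ← h8, ← hP]
      ring
    rw [e1, ← hP]
    ring
  have h10 : (t - k) ^ 2 ≤ 1 / 4 := by
    have := sq_le_sq' (abs_le.1 hu).1 (abs_le.1 hu).2
    linarith
  nlinarith [mul_le_mul_of_nonneg_left h5 hpos.le, mul_le_mul_of_nonneg_right h10 (sq_nonneg l)]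

theorem hermite_two : hermite 2 ≤ 2 / √3 := by
  have : Nonempty {A : Matrix (Fin 2) (Fin 2) ℝ // A.det ≠ 0} := ⟨⟨1, by simp⟩⟩
  refine ciSup_le fun A => ?_
  obtain ⟨A, hA⟩ := A
  show minSq A / |A.det| ^ ((2 : ℝ) / ((2 : ℕ) : ℝ)) ≤ _
  have hd : 0 < |A.det| := abs_pos.mpr hA
  have e1 : (2 : ℝ) / ((2 : ℕ) : ℝ) = 1 := by norm_num
  rw [e1, Real.rpow_one, div_le_iff₀ hd]
  have h3 : 0 < √(3 : ℝ) := Real.sqrt_pos.2 (by norm_num)
  have h1 : minSq A ^ 2 ≤ (2 / √3 * |A.det|) ^ 2 := by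
    rw [mul_pow, div_pow, sq_abs, Real.sq_sqrt (by norm_num)]
    have := herm_two A hA
    linarith
  exact (pow_le_pow_iff_left₀ (minSq_nonneg A) (by positivity) two_ne_zero).1 h1

/-- `γ_m ≤ m / √3` for every `m ≥ 2` -/
theorem kappa {m : ℕ} (hm : 2 ≤ m) : hermite m ≤ m / √3 := by
  rcases Nat.lt_or_ge 2 m with h | h
  · refine (hermite_mink hm).trans ?_
    have h3 : 0 < √(3 : ℝ) := Real.sqrt_pos.2 (by norm_num)
    have h3' : √(3 : ℝ) < 1.7321 := by
      rw [Real.sqrt_lt' (by norm_num)]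
      norm_num
    have hpi := Real.pi_gt_d2
    have hpi0 := Real.pi_pos
    rw [div_le_div_iff₀ hpi0 h3]
    have hm3 : (3 : ℝ) ≤ m := by exact_mod_cast h
    nlinarith
  · have : m = 2 := le_antisymm h hm
    subst this
    exact_mod_cast hermite_two

end Pool.Agent.X43.HE
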