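import Pool.Agent.X43.HE.Dec
import Pool.Agent.X43.HE.Kap

/-!
# Decomposable and tensor sublattices: asymptotics
-/

set_option autoImplicit false

namespace Pool.Agent.X43.HE

open Matrix Pool.Agent.H160R3.Herm Pool.Agent.TH220.HG Filter
open scoped Kronecker

theorem ev_self (ε : ℝ) (hε : 0 < ε) :
    ∃ K : ℕ, ∀ d : ℕ, K ≤ d → 1 ≤ d → hermite d ≤ Real.exp ε / Real.pi ^ 2 * d := by
  obtain ⟨K, hK⟩ := eventually_atTop.1 (ev_bound ε hε)
  exact ⟨K, fun d hd h1 => hK d hd d h1 le_rfl⟩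

theorem dbound (ε : ℝ) (hε : 0 < ε) : ∀ᶠ n : ℕ in atTop, ∀ d : ℕ, 1 ≤ d → d ≤ n →
    (1 - ε) * Real.log (n / d) + Real.log (Real.pi ^ 2) - ε ≤
      Real.log n - Real.log (hermite d) := by
  obtain ⟨K, hK⟩ := ev_self ε hε
  have hpi := Real.pi_pos
  have ht : Tendsto (fun n : ℕ => ε * (Real.log n - Real.log (K + 1))) atTop atTop :=
    (tendsto_atTop_add_const_right _ (-Real.log (K + 1))
      (Real.tendsto_log_atTop.comp tendsto_natCast_atTop_atTop)).const_mul_atTop hε
  filter_upwards [ht.eventually_ge_atTop (Real.log (Real.pi ^ 2)), eventually_gt_atTop 0] with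
    n h1 hn d hd1 hdn
  have hn' : (0 : ℝ) < n := by exact_mod_cast hn
  have hd' : (0 : ℝ) < d := by exact_mod_cast hd1
  have hdn' : (d : ℝ) ≤ n := by exact_mod_cast hdn
  have hlog : 0 ≤ Real.log (n / d) := Real.log_nonneg (by rw [le_div_iff₀ hd']; linarith)
  have hh := hermite_pos' hd1
  have e1 : Real.log (n / d) = Real.log n - Real.log d := Real.log_div hn'.ne' hd'.ne'
  rcases le_or_gt K d with h | h
  · have h2 := Real.log_le_log hh (hK d h hd1)
    rw [Real.log_mul (by positivity) hd'.ne', Real.log_div (Real.exp_ne_zero _) (by positivity),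
      Real.log_exp] at h2
    nlinarith [mul_nonneg hε.le hlog]
  · have h2 := Real.log_le_log hh (hermite_le hd1)
    have h3 : Real.log d ≤ Real.log (K + 1) := Real.log_le_log hd' (by
      have : (d : ℝ) ≤ K := by exact_mod_cast h.le
      linarith)
    rw [e1] at hlog ⊢
    nlinarith [mul_le_mul_of_nonneg_left h3 hε.le]

/-- orthogonal sums, asymptotic form -/
theorem orth_asym (c ε : ℝ) (hc : 0 < c) (hε : 0 < ε) :
    ∀ᶠ n : ℕ in atTop, ∀ A : Matrix (Fin n) (Fin n) ℝ, A.det ≠ 0 → c * n ≤ gam A →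
      ∀ N : Matrix (Fin n) (Fin n) ℤ, N.det ≠ 0 →
      ∀ (t : ℕ) (d : Fin t → ℕ) (B : ∀ β, Matrix (Fin (d β)) (Fin (d β)) ℝ)
        (e : (Σ β, Fin (d β)) ≃ Fin n),
        (subGram A N).submatrix e e = Matrix.blockDiagonal' (fun β => (B β)ᵀ * B β) →
        (1 - ε) * ∑ β, (d β : ℝ) * Real.log (n / d β) -
          (Real.log (1 / (Real.pi ^ 2 * c)) + ε) * n ≤ 2 * Real.log |(N.det : ℝ)| := by
  have hpi := Real.pi_pos
  filter_upwards [dbound ε hε, eventually_gt_atTop 0] with n hdb hn A hA hcA N hN t d B e h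
  have hn' : (0 : ℝ) < n := by exact_mod_cast hn
  have hN' : (N.det : ℝ) ≠ 0 := by exact_mod_cast hN
  obtain ⟨hB, hg⟩ := orth_gam hn hA hN d B e h
  have hcard : (n : ℝ) = ∑ β, (d β : ℝ) := by
    have := Fintype.card_congr e
    rw [Fintype.card_sigma] at this
    have h2 : n = ∑ β, d β := by simpa using this.symm
    rw [h2]
    push_cast
    rfl
  have hgam : 0 < gam A := gam_pos hn hA
  have hfac : ∀ β, gam (B β) ^ d β ≠ 0 := by
    intro β
    rcases Nat.eq_zero_or_pos (d β) with h0 | h0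
    · have h6 : ∀ x : ℝ, x ^ d β = 1 := fun x => by rw [h0, pow_zero]
      rw [h6]
      exact one_ne_zero
    · exact pow_ne_zero _ (gam_pos h0 (hB β)).ne'
  have h1 := Real.log_le_log (by positivity) hg
  rw [Real.log_pow, Real.log_mul (by positivity) (Finset.prod_ne_zero_iff.2 fun β _ => hfac β),
    Real.log_pow, Real.log_prod (fun β _ => hfac β)] at h1
  have h2 : Real.log c + Real.log n ≤ Real.log (gam A) := by
    rw [← Real.log_mul hc.ne' hn'.ne']
    exact Real.log_le_log (by positivity) hcA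
  have h3 : ∀ β, Real.log (gam (B β) ^ d β) ≤ (d β : ℝ) * Real.log n -
      (1 - ε) * ((d β : ℝ) * Real.log (n / d β)) - (d β : ℝ) * (Real.log (Real.pi ^ 2) - ε) := by
    intro β
    rw [Real.log_pow]
    rcases Nat.eq_zero_or_pos (d β) with h0 | h0
    · have h6 : ((d β : ℕ) : ℝ) = 0 := by rw [h0]; norm_num
      rw [h6]
      simp
    · have hdn : d β ≤ n := by
        have h7 : (d β : ℝ) ≤ n := by
          rw [hcard]
          exact Finset.single_le_sum (f := fun β => (d β : ℝ)) (fun _ _ => Nat.cast_nonneg _)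
            (Finset.mem_univ β)
        exact_mod_cast h7
      have h4 := hdb (d β) h0 hdn
      have h5 : Real.log (gam (B β)) ≤ Real.log (hermite (d β)) :=
        Real.log_le_log (gam_pos h0 (hB β)) (gam_le h0 (hB β))
      have hd0 : (0 : ℝ) ≤ d β := Nat.cast_nonneg _
      nlinarith [mul_le_mul_of_nonneg_left h4 hd0, mul_le_mul_of_nonneg_left h5 hd0]
  have h4 := Finset.sum_le_sum fun β (_ : β ∈ Finset.univ) => h3 β
  rw [Finset.sum_sub_distrib, Finset.sum_sub_distrib, ← Finset.sum_mul, ← Finset.sum_mul,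
    ← Finset.mul_sum, ← hcard] at h4
  have e2 : Real.log (1 / (Real.pi ^ 2 * c)) = - (Real.log (Real.pi ^ 2) + Real.log c) := by
    rw [one_div, Real.log_inv, Real.log_mul (by positivity) hc.ne']
  have e3 : Real.log (N.det : ℝ) = Real.log |(N.det : ℝ)| := (Real.log_abs _).symm
  rw [e3] at h1
  simp only [Nat.cast_ofNat] at h1
  rw [e2]
  nlinarith [mul_le_mul_of_nonneg_left h2 hn'.le]

theorem mh_const : 1 / (Real.pi ^ 2 * (1 / (2 * Real.pi * Real.exp 1))) =
    2 * Real.exp 1 / Real.pi := by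
  have hpi := Real.pi_pos
  have := Real.exp_pos 1
  field_simp

/-- an exponential gap for orthogonal sums with pieces of dimension at most `θ n` -/
theorem orth_gap (θ : ℝ) (hθ : θ < Real.pi / (2 * Real.exp 1)) :
    ∃ δ : ℝ, 0 < δ ∧ ∀ᶠ n : ℕ in atTop, ∀ A : Matrix (Fin n) (Fin n) ℝ, A.det ≠ 0 →
      n / (2 * Real.pi * Real.exp 1) ≤ gam A →
      ∀ N : Matrix (Fin n) (Fin n) ℤ, N.det ≠ 0 →
      ∀ (t : ℕ) (d : Fin t → ℕ) (B : ∀ β, Matrix (Fin (d β)) (Fin (d β)) ℝ)
        (e : (Σ β, Fin (d β)) ≃ Fin n), (∀ β, (d β : ℝ) ≤ θ * n) →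
        (subGram A N).submatrix e e = Matrix.blockDiagonal' (fun β => (B β)ᵀ * B β) →
        Real.exp (δ * n) ≤ |(N.det : ℝ)| := by
  have hpi := Real.pi_pos
  have he := Real.exp_pos 1
  obtain ⟨τ, hτ0, hτσ, hτ⟩ : ∃ τ : ℝ, 0 < τ ∧ θ ≤ τ ∧ τ < Real.pi / (2 * Real.exp 1) := by
    refine ⟨max θ (Real.pi / (2 * Real.exp 1) / 2), ?_, le_max_left _ _, max_lt hθ ?_⟩
    · exact lt_of_lt_of_le (by positivity) (le_max_right _ _)
    · exact half_lt_self (by positivity)
  obtain ⟨g, hg⟩ : ∃ g, g = Real.log (1 / τ) - Real.log (2 * Real.exp 1 / Real.pi) := ⟨_, rfl⟩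
  have hg0 : 0 < g := by
    rw [hg, sub_pos]
    apply Real.log_lt_log (by positivity)
    rw [div_lt_div_iff₀ (by positivity) (by positivity), one_mul]
    rw [lt_div_iff₀ (by positivity)] at hτ
    linarith
  have hτ1 : τ < 1 := by
    refine hτ.trans ?_
    rw [div_lt_one (by positivity)]
    have := Real.exp_one_gt_d9
    have := Real.pi_lt_d2
    linarith
  have hlτ : 0 < Real.log (1 / τ) := Real.log_pos (by rw [lt_div_iff₀ hτ0]; linarith)
  obtain ⟨ε, hε⟩ : ∃ ε, ε = min (1 / 2) (g / (2 * (Real.log (1 / τ) + 1))) := ⟨_, rfl⟩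
  have hε0 : 0 < ε := by
    rw [hε]
    exact lt_min (by norm_num) (by positivity)
  have hε1 : ε ≤ 1 / 2 := by rw [hε]; exact min_le_left _ _
  have hε2 : ε * (Real.log (1 / τ) + 1) ≤ g / 2 := by
    have h1 : ε ≤ g / (2 * (Real.log (1 / τ) + 1)) := by rw [hε]; exact min_le_right _ _
    rw [le_div_iff₀ (by positivity)] at h1
    linarith
  refine ⟨g / 4, by positivity, ?_⟩
  filter_upwards [orth_asym (1 / (2 * Real.pi * Real.exp 1)) ε (by positivity) hε0,
    eventually_gt_atTop 0] with n h hn A hA hcA N hN t d B e hd hbl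
  have hn' : (0 : ℝ) < n := by exact_mod_cast hn
  have hN' : (N.det : ℝ) ≠ 0 := by exact_mod_cast hN
  have h1 := h A hA (by rw [one_div, inv_mul_eq_div]; exact hcA) N hN t d B e hbl
  rw [mh_const] at h1
  have hcard : (n : ℝ) = ∑ β, (d β : ℝ) := by
    have := Fintype.card_congr e
    rw [Fintype.card_sigma] at this
    have h2 : n = ∑ β, d β := by simpa using this.symm
    rw [h2]
    push_cast
    rfl
  have h2 : n * Real.log (1 / τ) ≤ ∑ β, (d β : ℝ) * Real.log (n / d β) := by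
    conv_lhs => rw [hcard]
    rw [Finset.sum_mul]
    refine Finset.sum_le_sum fun β _ => ?_
    rcases Nat.eq_zero_or_pos (d β) with h0 | h0
    · have h6 : ((d β : ℕ) : ℝ) = 0 := by rw [h0]; norm_num
      rw [h6]
      simp
    · have hd0 : (0 : ℝ) < d β := by exact_mod_cast h0
      refine mul_le_mul_of_nonneg_left ?_ hd0.le
      apply Real.log_le_log (by positivity)
      rw [div_le_div_iff₀ hτ0 hd0, one_mul]
      calc (d β : ℝ) ≤ θ * n := hd β
        _ ≤ n * τ := by nlinarith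
  rw [← Real.le_log_iff_exp_le (abs_pos.2 hN')]
  have h3 : (1 - ε) * (n * Real.log (1 / τ)) ≤ (1 - ε) * ∑ β, (d β : ℝ) * Real.log (n / d β) :=
    mul_le_mul_of_nonneg_left h2 (by linarith)
  nlinarith [mul_le_mul_of_nonneg_right hε2 hn'.le]

/-- tensor products, asymptotic form -/
theorem tensor_asym (c ε : ℝ) (hc : 0 < c) (hε : 0 < ε) :
    ∀ᶠ n : ℕ in atTop, ∀ A : Matrix (Fin n) (Fin n) ℝ, A.det ≠ 0 → c * n ≤ gam A →
      ∀ N : Matrix (Fin n) (Fin n) ℤ, N.det ≠ 0 →
      ∀ m k : ℕ, 2 ≤ m → 2 ≤ k →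
      ∀ (B : Matrix (Fin m) (Fin m) ℝ) (C : Matrix (Fin k) (Fin k) ℝ) (e : Fin m × Fin k ≃ Fin n),
        (subGram A N).submatrix e e = (Bᵀ * B) ⊗ₖ (Cᵀ * C) →
        (Real.log (√3 * Real.pi ^ 2 * c) - ε) * n ≤ 2 * Real.log |(N.det : ℝ)| := by
  have hpi := Real.pi_pos
  obtain ⟨K, hK⟩ := ev_self ε hε
  have h3 : 0 < √(3 : ℝ) := Real.sqrt_pos.2 (by norm_num)
  filter_upwards [eventually_ge_atTop (K * K + 1)] with n hnK A hA hcA N hN m k hm hk B C e h
  have hn : 0 < n := by omega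
  have hn' : (0 : ℝ) < n := by exact_mod_cast hn
  have hN' : (N.det : ℝ) ≠ 0 := by exact_mod_cast hN
  have hcard : m * k = n := by
    have := Fintype.card_congr e
    simpa using this
  have hcard' : (m : ℝ) * k = n := by exact_mod_cast hcard
  obtain ⟨hB, hC, hg⟩ := tensor_gam (by omega : 0 < m) (by omega : 0 < k) hA hN B C e h
  have hm1 : 0 < m := by omega
  have hk1 : 0 < k := by omega
  have gB0 := (gam_pos hm1 hB).le
  have gC0 := (gam_pos hk1 hC).le
  have hprod : gam B * gam C ≤ Real.exp ε / (√3 * Real.pi ^ 2) * n := by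
    have hB1 := gam_le hm1 hB
    have hC1 := gam_le hk1 hC
    rcases le_total K k with hKk | hKk
    · calc gam B * gam C ≤ (m / √3) * (Real.exp ε / Real.pi ^ 2 * k) :=
            mul_le_mul (hB1.trans (kappa hm)) (hC1.trans (hK k hKk hk1)) gC0 (by positivity)
        _ = _ := by rw [← hcard']; field_simp
    · have hKm : K ≤ m := by
        by_contra hcon
        push Not at hcon
        have : m * k < K * K + 1 := by nlinarith
        omega
      calc gam B * gam C ≤ (Real.exp ε / Real.pi ^ 2 * m) * (k / √3) :=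
            mul_le_mul (hB1.trans (hK m hKm hm1)) (hC1.trans (kappa hk)) gC0 (by positivity)
        _ = _ := by rw [← hcard']; field_simp
  have h1 : (c * n) ^ n ≤ (N.det : ℝ) ^ 2 * (Real.exp ε / (√3 * Real.pi ^ 2) * n) ^ n :=
    calc (c * n) ^ n ≤ gam A ^ n := pow_le_pow_left₀ (by positivity) hcA n
      _ ≤ _ := hg
      _ ≤ _ := by gcongr
  have h2 := Real.log_le_log (by positivity) h1
  rw [Real.log_mul (by positivity) (by positivity), Real.log_pow, Real.log_pow, Real.log_pow,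
    Real.log_mul hc.ne' hn'.ne', Real.log_mul (by positivity) hn'.ne',
    Real.log_div (Real.exp_ne_zero _) (by positivity), Real.log_exp] at h2
  rw [Real.log_mul (by positivity) hc.ne', ← Real.log_abs (N.det : ℝ)] at *
  simp only [Nat.cast_ofNat] at h2
  nlinarith

/-- tensor products of large lattices -/
theorem tensor_asym' (c ε : ℝ) (hc : 0 < c) (hε : 0 < ε) :
    ∃ K : ℕ, ∀ n : ℕ, ∀ A : Matrix (Fin n) (Fin n) ℝ, A.det ≠ 0 → c * n ≤ gam A →
      ∀ N : Matrix (Fin n) (Fin n) ℤ, N.det ≠ 0 →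
      ∀ m k : ℕ, K ≤ m → K ≤ k →
      ∀ (B : Matrix (Fin m) (Fin m) ℝ) (C : Matrix (Fin k) (Fin k) ℝ) (e : Fin m × Fin k ≃ Fin n),
        (subGram A N).submatrix e e = (Bᵀ * B) ⊗ₖ (Cᵀ * C) →
        (Real.log (Real.pi ^ 4 * c) - ε) * n ≤ 2 * Real.log |(N.det : ℝ)| := by
  have hpi := Real.pi_pos
  obtain ⟨K, hK⟩ := ev_self (ε / 2) (half_pos hε)
  refine ⟨K + 1, fun n A hA hcA N hN m k hm hk B C e h => ?_⟩
  have hm1 : 0 < m := by omega
  have hk1 : 0 < k := by omega
  have hcard : m * k = n := by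
    have := Fintype.card_congr e
    simpa using this
  have hn : 0 < n := by rw [← hcard]; positivity
  have hn' : (0 : ℝ) < n := by exact_mod_cast hn
  have hN' : (N.det : ℝ) ≠ 0 := by exact_mod_cast hN
  have hcard' : (m : ℝ) * k = n := by exact_mod_cast hcard
  obtain ⟨hB, hC, hg⟩ := tensor_gam hm1 hk1 hA hN B C e h
  have gB0 := (gam_pos hm1 hB).le
  have gC0 := (gam_pos hk1 hC).le
  have hexp : Real.exp ε = Real.exp (ε / 2) * Real.exp (ε / 2) := by
    rw [← Real.exp_add]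
    ring_nf
  have hprod : gam B * gam C ≤ Real.exp ε / Real.pi ^ 4 * n := by
    calc gam B * gam C ≤ (Real.exp (ε / 2) / Real.pi ^ 2 * m) *
          (Real.exp (ε / 2) / Real.pi ^ 2 * k) :=
          mul_le_mul ((gam_le hm1 hB).trans (hK m (by omega) hm1))
            ((gam_le hk1 hC).trans (hK k (by omega) hk1)) gC0 (by positivity)
      _ = _ := by rw [← hcard', hexp]; field_simp
  have h1 : (c * n) ^ n ≤ (N.det : ℝ) ^ 2 * (Real.exp ε / Real.pi ^ 4 * n) ^ n :=
    calc (c * n) ^ n ≤ gam A ^ n := pow_le_pow_left₀ (by positivity) hcA n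
      _ ≤ _ := hg
      _ ≤ _ := by gcongr
  have h2 := Real.log_le_log (by positivity) h1
  rw [Real.log_mul (by positivity) (by positivity), Real.log_pow, Real.log_pow, Real.log_pow,
    Real.log_mul hc.ne' hn'.ne', Real.log_mul (by positivity) hn'.ne',
    Real.log_div (Real.exp_ne_zero _) (by positivity), Real.log_exp] at h2
  rw [Real.log_mul (by positivity) hc.ne', ← Real.log_abs (N.det : ℝ)] at *
  simp only [Nat.cast_ofNat] at h2
  nlinarith

theorem tensor_const : 0 < Real.log (√3 * Real.pi ^ 2 * (1 / (2 * Real.pi * Real.exp 1))) := by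
  have hpi := Real.pi_pos
  have he := Real.exp_pos 1
  apply Real.log_pos
  have h3 : 0 < √(3 : ℝ) := Real.sqrt_pos.2 (by norm_num)
  have h3' : (1.732 : ℝ) < √3 := by
    rw [Real.lt_sqrt (by norm_num)]
    norm_num
  have hpi' := Real.pi_gt_d4
  have he' := Real.exp_one_lt_d9
  rw [mul_one_div, lt_div_iff₀ (by positivity), one_mul]
  have : 2 * Real.exp 1 < √3 * Real.pi := by nlinarith
  nlinarith

/-- an exponential gap for tensor products -/
theorem tensor_gap :
    ∃ δ : ℝ, 0 < δ ∧ ∀ᶠ n : ℕ in atTop, ∀ A : Matrix (Fin n) (Fin n) ℝ, A.det ≠ 0 →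
      n / (2 * Real.pi * Real.exp 1) ≤ gam A →
      ∀ N : Matrix (Fin n) (Fin n) ℤ, N.det ≠ 0 →
      ∀ m k : ℕ, 2 ≤ m → 2 ≤ k →
      ∀ (B : Matrix (Fin m) (Fin m) ℝ) (C : Matrix (Fin k) (Fin k) ℝ) (e : Fin m × Fin k ≃ Fin n),
        (subGram A N).submatrix e e = (Bᵀ * B) ⊗ₖ (Cᵀ * C) →
        Real.exp (δ * n) ≤ |(N.det : ℝ)| := by
  have hpi := Real.pi_pos
  have he := Real.exp_pos 1
  obtain ⟨g, hg⟩ : ∃ g, g = Real.log (√3 * Real.pi ^ 2 * (1 / (2 * Real.pi * Real.exp 1))) :=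
    ⟨_, rfl⟩
  have hg0 : 0 < g := by rw [hg]; exact tensor_const
  refine ⟨g / 4, by positivity, ?_⟩
  filter_upwards [tensor_asym (1 / (2 * Real.pi * Real.exp 1)) (g / 2) (by positivity)
    (by positivity), eventually_gt_atTop 0] with n h hn A hA hcA N hN m k hm hk B C e hT
  have hN' : (N.det : ℝ) ≠ 0 := by exact_mod_cast hN
  have h1 := h A hA (by rw [one_div, inv_mul_eq_div]; exact hcA) N hN m k hm hk B C e hT
  rw [← hg] at h1
  rw [← Real.le_log_iff_exp_le (abs_pos.2 hN')]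
  linarith

end Pool.Agent.X43.HE
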