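import Pool.Agent.X43.HE.DecAsy

/-!
# Flags of sublattices
-/

set_option autoImplicit false

namespace Pool.Agent.X43.HE

open Matrix Pool.Agent.H160R3.Herm Pool.Agent.TH220.HG
open scoped InnerProductSpace

attribute [local instance 10] AddCommGroup.toIntModule

variable {E : Type*} [NormedAddCommGroup E] [InnerProductSpace ℝ E]

/-- one step of a flag -/
theorem flag_step {V : Type} [AddCommGroup V] [Module ℤ V] [Module.Free ℤ V] [Module.Finite ℤ V]
    (φ : V →ₗ[ℤ] E) {lam : ℝ} (hl : 0 < lam) (M K : Submodule ℤ V) (hKM : K ≤ M)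
    (hM : cd (φ.comp M.subtype) ≠ 0)
    (h : ∀ x ∈ M, x ∉ K → ∀ r ∈ Submodule.span ℝ (φ '' (K : Set V)), lam ≤ ‖φ x + r‖ ^ 2) :
    cd (φ.comp K.subtype) ≠ 0 ∧ Module.finrank ℤ K ≤ Module.finrank ℤ M ∧
    lam ^ (Module.finrank ℤ M - Module.finrank ℤ K) * cd (φ.comp K.subtype) ≤
      hermite (Module.finrank ℤ M - Module.finrank ℤ K) ^
        (Module.finrank ℤ M - Module.finrank ℤ K) * cd (φ.comp M.subtype) := by
  obtain ⟨K', hK'⟩ : ∃ K' : Submodule ℤ M, K' = K.comap M.subtype := ⟨_, rfl⟩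
  have hmem : ∀ m : M, m ∈ K' ↔ (m : V) ∈ K := by
    intro m
    rw [hK']
    rfl
  -- the quotient is torsion free
  have htf : Module.IsTorsionFree ℤ (M ⧸ K') := by
    rw [Module.isTorsionFree_iff_smul_eq_zero]
    intro c q hcq
    by_cases hc : c = 0
    · exact Or.inl hc
    · right
      obtain ⟨m, rfl⟩ := K'.mkQ_surjective q
      by_contra hm0
      have hmK : (m : V) ∉ K := by
        intro h0
        apply hm0
        rw [Submodule.mkQ_apply, Submodule.Quotient.mk_eq_zero]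
        exact (hmem m).2 h0
      have hcq' : c • (K'.mkQ m) = 0 := (int_smul_eq_zsmul inferInstance c _).symm.trans hcq
      have hcm : c • (m : V) ∈ K := by
        have h1 : K'.mkQ (c • m) = 0 := by rw [map_zsmul]; exact hcq'
        rw [Submodule.mkQ_apply, Submodule.Quotient.mk_eq_zero] at h1
        exact (hmem _).1 h1
      have hr : - φ (m : V) ∈ Submodule.span ℝ (φ '' (K : Set V)) := by
        have h2 : φ (c • (m : V)) ∈ Submodule.span ℝ (φ '' (K : Set V)) :=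
          Submodule.subset_span ⟨_, hcm, rfl⟩
        have hc' : (c : ℝ) ≠ 0 := by exact_mod_cast hc
        have h3 : φ (c • (m : V)) = (c : ℝ) • φ (m : V) := by
          rw [map_zsmul]
          exact (Int.cast_smul_eq_zsmul ℝ _ _).symm
        rw [h3] at h2
        have h4 := Submodule.smul_mem _ (-(c : ℝ)⁻¹) h2
        rw [smul_smul, neg_mul, inv_mul_cancel₀ hc', neg_smul, one_smul] at h4
        exact h4
      have h5 := h (m : V) m.2 hmK _ hr
      rw [add_neg_cancel, norm_zero] at h5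
      norm_num at h5
      linarith
  obtain ⟨h1, h2, h3⟩ := step (φ.comp M.subtype) hM K'.mkQ hl.le one_pos (fun m hm r hr => by
    have hmK : (m : V) ∉ K := by
      intro h0
      apply hm
      rw [Submodule.mkQ_apply, Submodule.Quotient.mk_eq_zero]
      exact (hmem m).2 h0
    have hr' : r ∈ Submodule.span ℝ (φ '' (K : Set V)) := by
      refine Submodule.span_mono ?_ hr
      rintro _ ⟨k, hk, rfl⟩
      refine ⟨(k : V), ?_, rfl⟩
      have : k ∈ LinearMap.ker K'.mkQ := hk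
      rw [Submodule.ker_mkQ] at this
      exact (hmem k).1 this
    have := h (m : V) m.2 hmK r hr'
    rw [one_pow, one_mul]
    exact this)
  have e1 : K'.comap (LinearMap.id) = LinearMap.ker K'.mkQ := by
    rw [Submodule.ker_mkQ, Submodule.comap_id]
  obtain ⟨e, he⟩ : ∃ e : LinearMap.ker K'.mkQ ≃ₗ[ℤ] K, ∀ m, ((e m : K) : V) = ((m : M) : V) := by
    have h6 : LinearMap.ker K'.mkQ = K.comap M.subtype := by rw [Submodule.ker_mkQ, hK']
    refine ⟨(LinearEquiv.ofEq _ _ h6).trans (Submodule.comapSubtypeEquivOfLe hKM), fun m => rfl⟩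
  have hcd : cd (φ.comp K.subtype) =
      cd ((φ.comp M.subtype).comp (LinearMap.ker K'.mkQ).subtype) :=
    cd_equiv e _ _ (fun m => by
      show φ ((e m : K) : V) = φ ((m : M) : V)
      rw [he])
  have hfr : Module.finrank ℤ K = Module.finrank ℤ (LinearMap.ker K'.mkQ) :=
    (LinearEquiv.finrank_eq e).symm
  have hsub : Module.finrank ℤ M - Module.finrank ℤ K =
      Module.finrank ℤ (LinearMap.range K'.mkQ) := by omega
  rw [hcd, hsub]
  refine ⟨h1, by omega, ?_⟩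
  rw [one_pow, one_mul] at h3
  exact h3

theorem cd_bot {M : Type} [AddCommGroup M] [Module ℤ M] [Module.Free ℤ M] [Module.Finite ℤ M]
    (φ : M →ₗ[ℤ] E) (h : Module.finrank ℤ M = 0) : cd φ = 1 := by
  unfold cd
  have : IsEmpty (Fin (Module.finrank ℤ M)) := by rw [h]; infer_instance
  exact Matrix.det_isEmpty

/-- decreasing flags -/
theorem flag_abs {V : Type} [AddCommGroup V] [Module ℤ V] [Module.Free ℤ V] [Module.Finite ℤ V]
    (φ : V →ₗ[ℤ] E) (hφ : cd φ ≠ 0) {lam : ℝ} (hl : 0 < lam) (G : ℕ → Submodule ℤ V)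
    (hG0 : G 0 = ⊤) (hG : ∀ i, G (i + 1) ≤ G i) (δ : ℕ → ℝ) (hδ : ∀ i, 0 < δ i) (t : ℕ)
    (h : ∀ i < t, ∀ x ∈ G i, x ∉ G (i + 1) →
      ∀ r ∈ Submodule.span ℝ (φ '' (G (i + 1) : Set V)), δ i * lam ≤ ‖φ x + r‖ ^ 2) :
    ∀ i ≤ t, cd (φ.comp (G i).subtype) ≠ 0 ∧ Module.finrank ℤ (G i) ≤ Module.finrank ℤ V ∧
      lam ^ (Module.finrank ℤ V - Module.finrank ℤ (G i)) *
        (∏ j ∈ Finset.range i, δ j ^ (Module.finrank ℤ (G j) - Module.finrank ℤ (G (j + 1)))) *
          cd (φ.comp (G i).subtype) ≤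
      (∏ j ∈ Finset.range i, hermite (Module.finrank ℤ (G j) - Module.finrank ℤ (G (j + 1))) ^
        (Module.finrank ℤ (G j) - Module.finrank ℤ (G (j + 1)))) * cd φ := by
  intro i
  induction i with
  | zero =>
    intro _
    have htop : cd (φ.comp (G 0).subtype) = cd φ := by
      rw [hG0]
      exact cd_equiv (Submodule.topEquiv : _ ≃ₗ[ℤ] V).symm φ _ (fun m => rfl)
    have hft : Module.finrank ℤ (G 0) = Module.finrank ℤ V := by
      rw [hG0]
      exact finrank_top ℤ V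
    rw [htop, hft, Finset.prod_range_zero, Finset.prod_range_zero, Nat.sub_self]
    exact ⟨hφ, le_rfl, by norm_num⟩
  | succ i ih =>
    intro hi
    obtain ⟨g1, g2, g3⟩ := ih (by omega)
    obtain ⟨k1, k2, k3⟩ := flag_step φ (mul_pos (hδ i) hl) (G i) (G (i + 1)) (hG i) g1
      (h i (by omega))
    refine ⟨k1, k2.trans g2, ?_⟩
    rw [Finset.prod_range_succ, Finset.prod_range_succ]
    obtain ⟨u, hu⟩ : ∃ u, u = Module.finrank ℤ (G i) - Module.finrank ℤ (G (i + 1)) := ⟨_, rfl⟩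
    obtain ⟨P, hP⟩ : ∃ P, P = ∏ j ∈ Finset.range i,
      δ j ^ (Module.finrank ℤ (G j) - Module.finrank ℤ (G (j + 1))) := ⟨_, rfl⟩
    obtain ⟨H, hH⟩ : ∃ H, H = ∏ j ∈ Finset.range i,
      hermite (Module.finrank ℤ (G j) - Module.finrank ℤ (G (j + 1))) ^
        (Module.finrank ℤ (G j) - Module.finrank ℤ (G (j + 1))) := ⟨_, rfl⟩
    have hP0 : 0 ≤ P := by
      rw [hP]
      exact Finset.prod_nonneg fun j _ => pow_nonneg (hδ j).le _
    have hh0 : 0 ≤ hermite u ^ u := pow_nonneg (hermite_nonneg' u) u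
    rw [← hu] at k3 ⊢
    rw [← hP] at g3 ⊢
    rw [← hH] at g3 ⊢
    have hn : Module.finrank ℤ V - Module.finrank ℤ (G (i + 1)) =
        (Module.finrank ℤ V - Module.finrank ℤ (G i)) + u := by omega
    rw [hn, pow_add]
    calc lam ^ (Module.finrank ℤ V - Module.finrank ℤ (G i)) * lam ^ u * (P * δ i ^ u) *
          cd (φ.comp (G (i + 1)).subtype)
        = lam ^ (Module.finrank ℤ V - Module.finrank ℤ (G i)) * P *
          ((δ i * lam) ^ u * cd (φ.comp (G (i + 1)).subtype)) := by rw [mul_pow]; ring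
      _ ≤ lam ^ (Module.finrank ℤ V - Module.finrank ℤ (G i)) * P *
          (hermite u ^ u * cd (φ.comp (G i).subtype)) :=
          mul_le_mul_of_nonneg_left k3 (by positivity)
      _ = hermite u ^ u * (lam ^ (Module.finrank ℤ V - Module.finrank ℤ (G i)) * P *
          cd (φ.comp (G i).subtype)) := by ring
      _ ≤ hermite u ^ u * (H * cd φ) := mul_le_mul_of_nonneg_left g3 hh0
      _ = _ := by ring

/-- integer vectors as real vectors -/
def toR {n : ℕ} (v : Fin n → ℤ) : Fin n → ℝ := fun i => (v i : ℝ)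

/-- the real span of a sublattice -/
def realSpan {n : ℕ} (K : Submodule ℤ (Fin n → ℤ)) : Submodule ℝ (Fin n → ℝ) :=
  Submodule.span ℝ (toR '' (K : Set (Fin n → ℤ)))

/-- every vector of `M` outside `K` has squared distance at least `δ min(L)` from the span of `K`
(all in the lattice `L = A ℤⁿ`) -/
def FarFrom {n : ℕ} (A : Matrix (Fin n) (Fin n) ℝ) (M K : Submodule ℤ (Fin n → ℤ)) (δ : ℝ) :
    Prop :=
  ∀ x ∈ M, x ∉ K → ∀ y ∈ realSpan K, δ * minSq A ≤ ∑ i, (A *ᵥ (toR x + y)) i ^ 2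

/-- rank of a sublattice -/
noncomputable def rk {n : ℕ} (M : Submodule ℤ (Fin n → ℤ)) : ℕ := Module.finrank ℤ M

theorem far_abs {n : ℕ} {A : Matrix (Fin n) (Fin n) ℝ} {M K : Submodule ℤ (Fin n → ℤ)} {δ : ℝ}
    (h : FarFrom A M K δ) : ∀ x ∈ M, x ∉ K →
      ∀ r ∈ Submodule.span ℝ (emb A '' (K : Set (Fin n → ℤ))),
        δ * minSq A ≤ ‖emb A x + r‖ ^ 2 := by
  intro x hx hxK r hr
  have h1 : ∃ y ∈ realSpan K, r = WithLp.toLp 2 (A *ᵥ y) := by
    refine Submodule.span_induction (p := fun r _ => ∃ y ∈ realSpan K,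
      r = WithLp.toLp 2 (A *ᵥ y)) ?_ ?_ ?_ ?_ hr
    · rintro _ ⟨k, hk, rfl⟩
      exact ⟨toR k, Submodule.subset_span ⟨k, hk, rfl⟩, rfl⟩
    · exact ⟨0, Submodule.zero_mem _, by rw [Matrix.mulVec_zero]; rfl⟩
    · rintro _ _ _ _ ⟨y, hy, rfl⟩ ⟨z, hz, rfl⟩
      exact ⟨y + z, Submodule.add_mem _ hy hz, by rw [Matrix.mulVec_add, WithLp.toLp_add]⟩
    · rintro a _ _ ⟨y, hy, rfl⟩
      exact ⟨a • y, Submodule.smul_mem _ a hy, by rw [Matrix.mulVec_smul, WithLp.toLp_smul]⟩
  obtain ⟨y, hy, rfl⟩ := h1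
  refine (h x hx hxK y hy).trans (le_of_eq ?_)
  rw [emb_apply, ← WithLp.toLp_add, ← Matrix.mulVec_add, EuclideanSpace.real_norm_sq_eq]
  rfl

/-- the inequality for flags -/
theorem flag_gam {n : ℕ} (hn : 0 < n) {A : Matrix (Fin n) (Fin n) ℝ} (hA : A.det ≠ 0) (t : ℕ)
    (G : ℕ → Submodule ℤ (Fin n → ℤ)) (hG0 : G 0 = ⊤) (hGt : G t = ⊥)
    (hG : ∀ i, G (i + 1) ≤ G i) (δ : ℕ → ℝ) (hδ : ∀ i, 0 < δ i)
    (h : ∀ i < t, FarFrom A (G i) (G (i + 1)) (δ i)) :
    (∑ j ∈ Finset.range t, (rk (G j) - rk (G (j + 1))) = n) ∧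
    gam A ^ n * ∏ j ∈ Finset.range t, δ j ^ (rk (G j) - rk (G (j + 1))) ≤
      ∏ j ∈ Finset.range t, hermite (rk (G j) - rk (G (j + 1))) ^ (rk (G j) - rk (G (j + 1))) := by
  have hcd : cd (emb A) ≠ 0 := by
    rw [cd_emb_sq]
    exact pow_ne_zero _ hA
  have hanti : Antitone G := antitone_nat_of_succ_le hG
  have hrk : ∀ i, rk (G (i + 1)) ≤ rk (G i) := fun i => Submodule.finrank_mono (hG i)
  have hbot : rk (G t) = 0 := by
    rw [rk, hGt, finrank_bot]
  have htop : rk (G 0) = n := by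
    rw [rk, hG0, finrank_top, Module.finrank_fin_fun]
  have hsum : ∀ i, (∑ j ∈ Finset.range i, (rk (G j) - rk (G (j + 1)))) + rk (G i) = n := by
    intro i
    induction i with
    | zero => rw [Finset.sum_range_zero, zero_add, htop]
    | succ i ih =>
      rw [Finset.sum_range_succ]
      have := hrk i
      omega
  obtain ⟨-, -, h3⟩ := flag_abs (emb A) hcd (minSq_pos hn hA) G hG0 hG δ hδ t
    (fun i hi => far_abs (h i hi)) t le_rfl
  have hcb : cd ((emb A).comp (G t).subtype) = 1 := cd_bot _ hbot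
  have hft : Module.finrank ℤ (G t) = 0 := hbot
  rw [hcb, mul_one, hft, Nat.sub_zero, Module.finrank_fin_fun, cd_emb_sq] at h3
  refine ⟨by have := hsum t; rw [hbot] at this; exact this, ?_⟩
  have hd : 0 < A.det ^ 2 := by positivity
  rw [gam_pow hn hA, div_mul_eq_mul_div, div_le_iff₀ hd]
  exact h3

end Pool.Agent.X43.HE
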