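import Pool.Agent.X43.HE.Flag

/-!
# Flags of sublattices: asymptotics
-/

set_option autoImplicit false

namespace Pool.Agent.X43.HE

open Matrix Pool.Agent.H160R3.Herm Pool.Agent.TH220.HG Filter

attribute [local instance 10] AddCommGroup.toIntModule

theorem far_bot {n : ℕ} (A : Matrix (Fin n) (Fin n) ℝ) (M : Submodule ℤ (Fin n → ℤ)) :
    FarFrom A M ⊥ 1 := by
  intro x _ hx0 y hy
  have hy0 : y = 0 := by
    have h1 : realSpan (⊥ : Submodule ℤ (Fin n → ℤ)) = ⊥ := by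
      rw [realSpan, Submodule.span_eq_bot]
      rintro _ ⟨v, hv, rfl⟩
      have hv0 : v = 0 := hv
      rw [hv0]
      funext i
      simp [toR]
    rw [h1] at hy
    exact hy
  rw [hy0, add_zero, one_mul]
  exact minSq_le A x (fun h0 => hx0 (by rw [h0]; exact Submodule.zero_mem _))

/-- the entropy inequality for flags -/
theorem flag_asym (c ε : ℝ) (hc : 0 < c) (hε : 0 < ε) :
    ∀ᶠ n : ℕ in atTop, ∀ A : Matrix (Fin n) (Fin n) ℝ, A.det ≠ 0 → c * n ≤ gam A →
      ∀ (t : ℕ) (G : ℕ → Submodule ℤ (Fin n → ℤ)), G 0 = ⊤ → G t = ⊥ → Antitone G →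
      ∀ δ : ℕ → ℝ, (∀ i, 0 < δ i) → (∀ i < t, FarFrom A (G i) (G (i + 1)) (δ i)) →
        (1 - ε) * ∑ j ∈ Finset.range t, ((rk (G j) - rk (G (j + 1)) : ℕ) : ℝ) *
            Real.log (n / (rk (G j) - rk (G (j + 1)) : ℕ)) -
          (Real.log (1 / (Real.pi ^ 2 * c)) + ε) * n ≤
        ∑ j ∈ Finset.range t, ((rk (G j) - rk (G (j + 1)) : ℕ) : ℝ) * Real.log (1 / δ j) := by
  have hpi := Real.pi_pos
  filter_upwards [dbound ε hε, eventually_gt_atTop 0] with n hdb hn A hA hcA t G hG0 hGt hG δ hδ h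
  have hn' : (0 : ℝ) < n := by exact_mod_cast hn
  obtain ⟨hs, hg⟩ := flag_gam hn hA t G hG0 hGt (fun i => hG (Nat.le_succ i)) δ hδ h
  obtain ⟨d, hd⟩ : ∃ d : ℕ → ℕ, d = fun j => rk (G j) - rk (G (j + 1)) := ⟨_, rfl⟩
  have hd' : ∀ j, rk (G j) - rk (G (j + 1)) = d j := fun j => by rw [hd]
  simp only [hd'] at hs hg ⊢
  have hcard : (n : ℝ) = ∑ j ∈ Finset.range t, (d j : ℝ) := by
    rw [← hs]
    push_cast
    rfl
  have hgam : 0 < gam A := gam_pos hn hA
  have hfac : ∀ j, 0 < hermite (d j) ^ d j := by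
    intro j
    rcases Nat.eq_zero_or_pos (d j) with h0 | h0
    · rw [h0, pow_zero]
      exact one_pos
    · exact pow_pos (hermite_pos' h0) _
  have hP : 0 < ∏ j ∈ Finset.range t, δ j ^ d j := Finset.prod_pos fun j _ => pow_pos (hδ j) _
  have h1 := Real.log_le_log (mul_pos (pow_pos hgam n) hP) hg
  rw [Real.log_mul (pow_pos hgam n).ne' hP.ne', Real.log_pow,
    Real.log_prod (fun j _ => (pow_pos (hδ j) (d j)).ne'),
    Real.log_prod (fun j _ => (hfac j).ne')] at h1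
  have h2 : Real.log c + Real.log n ≤ Real.log (gam A) := by
    rw [← Real.log_mul hc.ne' hn'.ne']
    exact Real.log_le_log (by positivity) hcA
  have h3 : ∀ j ∈ Finset.range t, Real.log (hermite (d j) ^ d j) ≤ (d j : ℝ) * Real.log n -
      (1 - ε) * ((d j : ℝ) * Real.log (n / d j)) - (d j : ℝ) * (Real.log (Real.pi ^ 2) - ε) := by
    intro j hj
    rw [Real.log_pow]
    rcases Nat.eq_zero_or_pos (d j) with h0 | h0
    · rw [h0]
      simp
    · have hdn : d j ≤ n := by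
        rw [← hs]
        exact Finset.single_le_sum (f := d) (fun _ _ => Nat.zero_le _) hj
      have h4 := hdb (d j) h0 hdn
      have hd0 : (0 : ℝ) ≤ d j := Nat.cast_nonneg _
      nlinarith [mul_le_mul_of_nonneg_left h4 hd0]
  have h4 := Finset.sum_le_sum h3
  rw [Finset.sum_sub_distrib, Finset.sum_sub_distrib, ← Finset.sum_mul, ← Finset.sum_mul,
    ← Finset.mul_sum, ← hcard] at h4
  have e2 : Real.log (1 / (Real.pi ^ 2 * c)) = - (Real.log (Real.pi ^ 2) + Real.log c) := by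
    rw [one_div, Real.log_inv, Real.log_mul (by positivity) hc.ne']
  have e3 : ∑ j ∈ Finset.range t, Real.log (δ j ^ d j) =
      - ∑ j ∈ Finset.range t, (d j : ℝ) * Real.log (1 / δ j) := by
    rw [← Finset.sum_neg_distrib]
    refine Finset.sum_congr rfl fun j _ => ?_
    rw [Real.log_pow, one_div, Real.log_inv]
    ring
  rw [e3] at h1
  rw [e2]
  nlinarith [mul_le_mul_of_nonneg_left h2 hn'.le]

/-- vectors near the span of a sublattice -/
theorem near_one (c ε : ℝ) (hc : 0 < c) (hε : 0 < ε) :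
    ∀ᶠ n : ℕ in atTop, ∀ A : Matrix (Fin n) (Fin n) ℝ, A.det ≠ 0 → c * n ≤ gam A →
      ∀ (M : Submodule ℤ (Fin n → ℤ)) (k : ℕ), rk M = k → 0 < k → k < n →
        ∃ x : Fin n → ℤ, x ∉ M ∧ ∃ y ∈ realSpan M,
          ∑ i, (A *ᵥ (toR x + y)) i ^ 2 <
            Real.exp (-((1 - ε) * (k * Real.log (n / k) +
              ((n : ℝ) - k) * Real.log (n / ((n : ℝ) - k))) -
              (Real.log (1 / (Real.pi ^ 2 * c)) + ε) * n) / ((n : ℝ) - k)) * minSq A := by
  filter_upwards [flag_asym c (ε / 2) hc (half_pos hε)] with n h A hA hcA M k hk hk0 hkn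
  by_contra hcon
  push Not at hcon
  have hn : 0 < n := by omega
  have hn' : (0 : ℝ) < n := by exact_mod_cast hn
  have hk' : (0 : ℝ) < k := by exact_mod_cast hk0
  have hkn' : (k : ℝ) < n := by exact_mod_cast hkn
  have hnk : (0 : ℝ) < n - k := by linarith
  obtain ⟨X, hX⟩ : ∃ X : ℝ, X = (1 - ε) * (k * Real.log (n / k) +
      ((n : ℝ) - k) * Real.log (n / ((n : ℝ) - k))) -
      (Real.log (1 / (Real.pi ^ 2 * c)) + ε) * n := ⟨_, rfl⟩
  rw [← hX] at hcon
  obtain ⟨G, hG⟩ : ∃ G : ℕ → Submodule ℤ (Fin n → ℤ),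
      G = fun i => if i = 0 then ⊤ else if i = 1 then M else ⊥ := ⟨_, rfl⟩
  have g0 : G 0 = ⊤ := by rw [hG]; simp
  have g1 : G 1 = M := by rw [hG]; simp
  have g2 : ∀ i, 2 ≤ i → G i = ⊥ := by
    intro i hi
    rw [hG]
    have h0 : i ≠ 0 := by omega
    have h1 : i ≠ 1 := by omega
    simp [h0, h1]
  have hanti : Antitone G := by
    refine antitone_nat_of_succ_le fun i => ?_
    rcases Nat.eq_zero_or_pos i with h0 | h0
    · subst h0
      rw [g0]
      exact le_top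
    · rw [g2 (i + 1) (by omega)]
      exact bot_le
  obtain ⟨δ, hδ⟩ : ∃ δ : ℕ → ℝ, δ = fun i => if i = 0 then Real.exp (-X / ((n : ℝ) - k)) else 1 :=
    ⟨_, rfl⟩
  have d0 : δ 0 = Real.exp (-X / ((n : ℝ) - k)) := by rw [hδ]; simp
  have d1 : δ 1 = 1 := by rw [hδ]; simp
  have hδ0 : ∀ i, 0 < δ i := by
    intro i
    rw [hδ]
    by_cases h0 : i = 0
    · simp only [h0, if_true]
      exact Real.exp_pos _
    · simp only [h0, if_false]
      exact one_pos
  have hfar : ∀ i < 2, FarFrom A (G i) (G (i + 1)) (δ i) := by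
    intro i hi
    interval_cases i
    · rw [g0, g1, d0]
      intro x _ hx y hy
      exact hcon x hx y hy
    · rw [g1, g2 2 le_rfl, d1]
      exact far_bot A M
  have h1 := h A hA hcA 2 G g0 (g2 2 le_rfl) hanti δ hδ0 hfar
  have r0 : rk (G 0) = n := by
    rw [g0, rk, finrank_top, Module.finrank_fin_fun]
  have r1 : rk (G 1) = k := by rw [g1, hk]
  have r2 : rk (G 2) = 0 := by rw [g2 2 le_rfl, rk, finrank_bot]
  rw [Finset.sum_range_succ, Finset.sum_range_succ, Finset.sum_range_zero,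
    Finset.sum_range_succ, Finset.sum_range_succ, Finset.sum_range_zero] at h1
  norm_num only [zero_add] at h1
  rw [r0, r1, r2, Nat.sub_zero, Nat.cast_sub hkn.le, d0, d1] at h1
  have e1 : Real.log (1 / Real.exp (-X / ((n : ℝ) - k))) = X / (n - k) := by
    rw [one_div, ← Real.exp_neg, Real.log_exp]
    ring
  rw [e1, div_one, Real.log_one, mul_zero, add_zero, mul_div_cancel₀ _ hnk.ne', hX] at h1
  have hl1 : 0 ≤ Real.log (n / k) := Real.log_nonneg (by rw [le_div_iff₀ hk']; linarith)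
  have hl2 : 0 ≤ Real.log (n / ((n : ℝ) - k)) :=
    Real.log_nonneg (by rw [le_div_iff₀ hnk]; linarith)
  nlinarith [mul_nonneg hk'.le hl1, mul_nonneg hnk.le hl2, mul_pos hε hn',
    mul_nonneg hε.le (mul_nonneg hk'.le hl1), mul_nonneg hε.le (mul_nonneg hnk.le hl2)]

/-- flags with `t` steps of the same rank, Minkowski–Hlawka level -/
theorem near_flag (t : ℕ) (ht : 2 ≤ t) (η : ℝ)
    (hη : (2 * Real.exp 1 / (Real.pi * t)) ^ ((t : ℝ) / (t - 1)) < η) :
    ∀ᶠ k : ℕ in atTop, ∀ A : Matrix (Fin (t * k)) (Fin (t * k)) ℝ, A.det ≠ 0 →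
      ((t * k : ℕ) : ℝ) / (2 * Real.pi * Real.exp 1) ≤ gam A →
      ∀ G : ℕ → Submodule ℤ (Fin (t * k) → ℤ), Antitone G → (∀ i ≤ t, rk (G i) = (t - i) * k) →
        G 0 = ⊤ → ∃ i, i + 1 < t ∧ ∃ x ∈ G i, x ∉ G (i + 1) ∧ ∃ y ∈ realSpan (G (i + 1)),
          ∑ j, (A *ᵥ (toR x + y)) j ^ 2 < η * minSq A := by
  have hpi := Real.pi_pos
  have he := Real.exp_pos 1
  obtain ⟨m, rfl⟩ : ∃ m, t = m + 1 := ⟨t - 1, by omega⟩
  have hm : 1 ≤ m := by omega
  have hm' : (1 : ℝ) ≤ m := by exact_mod_cast hm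
  have ht' : ((m + 1 : ℕ) : ℝ) = m + 1 := by push_cast; ring
  rw [ht'] at hη
  have hb : 0 < 2 * Real.exp 1 / (Real.pi * ((m : ℝ) + 1)) := by positivity
  have hη0 : 0 < η := lt_trans (Real.rpow_pos_of_pos hb _) hη
  obtain ⟨C, hC⟩ : ∃ C, C = Real.log (2 * Real.exp 1 / Real.pi) := ⟨_, rfl⟩
  have hlog := Real.log_lt_log (Real.rpow_pos_of_pos hb _) hη
  rw [Real.log_rpow hb] at hlog
  have e1 : Real.log (2 * Real.exp 1 / (Real.pi * ((m : ℝ) + 1))) = C - Real.log (m + 1) := by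
    rw [hC, ← Real.log_div (by positivity) (by positivity)]
    congr 1
    field_simp
  rw [e1, add_sub_cancel_right, div_mul_eq_mul_div, div_lt_iff₀ (by linarith)] at hlog
  obtain ⟨g, hg⟩ : ∃ g, g = (m + 1) * (Real.log (m + 1) - C) + m * Real.log η := ⟨_, rfl⟩
  have hg0 : 0 < g := by
    rw [hg]
    linarith
  have hlm : 0 ≤ Real.log ((m : ℝ) + 1) := Real.log_nonneg (by linarith)
  obtain ⟨ε, hε⟩ : ∃ ε, ε = g / (2 * (m + 1) * (Real.log (m + 1) + 1)) := ⟨_, rfl⟩
  have hε0 : 0 < ε := by rw [hε]; positivity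
  have hε1 : ε * ((m + 1) * (Real.log (m + 1) + 1)) = g / 2 := by
    rw [hε]
    field_simp
  have htend : Tendsto (fun k : ℕ => (m + 1) * k) atTop atTop :=
    tendsto_id.const_mul_atTop' (Nat.succ_pos m)
  filter_upwards [htend.eventually (flag_asym (1 / (2 * Real.pi * Real.exp 1)) ε (by positivity)
    hε0), eventually_gt_atTop 0] with k h hk A hA hcA G hanti hrk hG0
  by_contra hcon
  push Not at hcon
  have hk' : (0 : ℝ) < k := by exact_mod_cast hk
  have hbot : G (m + 1) = ⊥ := by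
    have h0 := hrk (m + 1) le_rfl
    rw [Nat.sub_self, zero_mul] at h0
    exact Submodule.finrank_eq_zero.1 h0
  obtain ⟨δ, hδ⟩ : ∃ δ : ℕ → ℝ, δ = fun i => if i < m then η else 1 := ⟨_, rfl⟩
  have hδ1 : ∀ i, i < m → δ i = η := by
    intro i hi
    rw [hδ]
    simp [hi]
  have hδ2 : δ m = 1 := by
    rw [hδ]
    simp
  have hδ0 : ∀ i, 0 < δ i := by
    intro i
    by_cases hi : i < m
    · rw [hδ1 i hi]
      exact hη0
    · rw [hδ]
      simp [hi]
  have hfar : ∀ i < m + 1, FarFrom A (G i) (G (i + 1)) (δ i) := by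
    intro i hi
    rcases Nat.lt_or_ge i m with h0 | h0
    · rw [hδ1 i h0]
      intro x hx hx2 y hy
      exact hcon i (by omega) x hx hx2 y hy
    · have : i = m := by omega
      subst this
      rw [hδ2, hbot]
      exact far_bot A _
  have h1 := h A hA (by rw [one_div, inv_mul_eq_div]; exact hcA) (m + 1) G hG0 hbot hanti δ hδ0
    hfar
  have hr : ∀ j ∈ Finset.range (m + 1), rk (G j) - rk (G (j + 1)) = k := by
    intro j hj
    rw [Finset.mem_range] at hj
    rw [hrk j (by omega), hrk (j + 1) (by omega)]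
    have : m + 1 - j = (m + 1 - (j + 1)) + 1 := by omega
    rw [this, add_mul, one_mul, Nat.add_sub_cancel_left]
  have s1 : ∑ j ∈ Finset.range (m + 1), ((rk (G j) - rk (G (j + 1)) : ℕ) : ℝ) *
      Real.log (((m + 1) * k : ℕ) / (rk (G j) - rk (G (j + 1)) : ℕ)) =
      (m + 1) * k * Real.log (m + 1) := by
    rw [Finset.sum_congr rfl (fun j hj => by rw [hr j hj])]
    rw [Finset.sum_const, Finset.card_range, nsmul_eq_mul]
    push_cast
    rw [mul_div_assoc, div_self hk'.ne', mul_one]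
    ring
  have s2 : ∑ j ∈ Finset.range (m + 1), ((rk (G j) - rk (G (j + 1)) : ℕ) : ℝ) *
      Real.log (1 / δ j) = - (m * k * Real.log η) := by
    rw [Finset.sum_congr rfl (fun j hj => by rw [hr j hj]), Finset.sum_range_succ, hδ2, div_one,
      Real.log_one, mul_zero, add_zero,
      Finset.sum_congr rfl (fun j hj => by rw [hδ1 j (Finset.mem_range.1 hj)]), Finset.sum_const,
      Finset.card_range, nsmul_eq_mul, one_div, Real.log_inv]
    ring
  rw [s1, s2, mh_const, ← hC] at h1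
  push_cast at h1
  have h2 : (m + 1) * (Real.log (m + 1) - C) * k - g / 2 * k ≤ - (m * Real.log η) * k := by
    rw [← hε1]
    nlinarith
  have h3 : ((m : ℝ) + 1) * (Real.log (m + 1) - C) - g / 2 ≤ - ((m : ℝ) * Real.log η) :=
    le_of_mul_le_mul_right (by linarith) hk'
  linarith

end Pool.Agent.X43.HE
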