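import Pool.Agent.TH220.HG.Cor
import Mathlib.Analysis.InnerProductSpace.GramMatrix

/-!
# Gram determinants and Hermite's constant
-/

set_option autoImplicit false

namespace Pool.Agent.X43.HE

open Matrix Pool.Agent.H160R3.Herm Pool.Agent.TH220.HG
open scoped InnerProductSpace MatrixOrder

variable {E : Type*} [NormedAddCommGroup E] [InnerProductSpace ℝ E]

/-- Gram determinants of a direct sum -/
theorem gram_sum {ι κ : Type} [Fintype ι] [DecidableEq ι] [Fintype κ] [DecidableEq κ]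
    (v : ι → E) (c : κ → E) (hv : (gram ℝ v).det ≠ 0) :
    ∃ c' : κ → E, (∀ j, ∃ r : ι → ℝ, c' j = c j + ∑ i, r i • v i) ∧ 
      (gram ℝ (Sum.elim v c)).det = (gram ℝ v).det * (gram ℝ c').det := by
  obtain ⟨G, hG⟩ : ∃ G, G = gram ℝ v := ⟨_, rfl⟩
  rw [← hG] at hv
  obtain ⟨B, hB⟩ : ∃ B : Matrix ι κ ℝ, B = Matrix.of fun i j => ⟪v i, c j⟫_ℝ := ⟨_, rfl⟩
  obtain ⟨X, hX⟩ : ∃ X : Matrix ι κ ℝ, X = G⁻¹ * B := ⟨_, rfl⟩
  have hu : IsUnit G.det := isUnit_iff_ne_zero.2 hv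
  have hGX : G * X = B := by rw [hX, ← Matrix.mul_assoc, Matrix.mul_nonsing_inv _ hu, Matrix.one_mul]
  refine ⟨fun j => c j + ∑ i, (- X i j) • v i, fun j => ⟨_, rfl⟩, ?_⟩
  have h0 : ∀ k j, ⟪v k, c j + ∑ i, (- X i j) • v i⟫_ℝ = 0 := by
    intro k j
    rw [inner_add_right, inner_sum]
    have h1 : ∀ i, ⟪v k, (- X i j) • v i⟫_ℝ = - (G k i * X i j) := by
      intro i
      rw [inner_smul_right, hG, gram_apply]
      ring
    simp only [h1, Finset.sum_neg_distrib]
    have h2 : ∑ i, G k i * X i j = B k j := by rw [← hGX, Matrix.mul_apply]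
    rw [h2, hB]
    simp
  have e1 : gram ℝ (Sum.elim v c) = Matrix.fromBlocks G B Bᵀ (gram ℝ c) := by
    ext (i | i) (j | j)
    · simp [hG, gram_apply]
    · simp [hB, gram_apply]
    · simp [hB, gram_apply, real_inner_comm]
    · simp [gram_apply]
  have e2 : gram ℝ (fun j => c j + ∑ i, (- X i j) • v i) = gram ℝ c - Bᵀ * G⁻¹ * B := by
    ext i j
    rw [gram_apply, Matrix.sub_apply, gram_apply, Matrix.mul_assoc, ← hX, Matrix.mul_apply,
      inner_add_left, sum_inner]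
    have h3 : ∀ k, ⟪(- X k i) • v k, c j + ∑ i, (- X i j) • v i⟫_ℝ = 0 := by
      intro k
      rw [inner_smul_left, h0, mul_zero]
    simp only [h3, Finset.sum_const_zero, add_zero]
    rw [inner_add_right, inner_sum, sub_eq_add_neg, ← Finset.sum_neg_distrib]
    congr 1
    refine Finset.sum_congr rfl fun k _ => ?_
    rw [inner_smul_right, hB, Matrix.transpose_apply, Matrix.of_apply, real_inner_comm]
    ring
  have hinv : Invertible G := Matrix.invertibleOfIsUnitDet G hu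
  rw [e1, Matrix.det_fromBlocks₁₁, e2, Matrix.invOf_eq_nonsing_inv, hG]

/-- Hermite's inequality for Gram determinants -/
theorem herm_fin {k : ℕ} (v : Fin k → E) (hv : (gram ℝ v).det ≠ 0) {lam : ℝ} (hl : 0 ≤ lam)
    (h : ∀ w : Fin k → ℤ, w ≠ 0 → lam ≤ ‖∑ i, (w i : ℝ) • v i‖ ^ 2) :
    lam ^ k ≤ hermite k ^ k * (gram ℝ v).det := by
  rcases Nat.eq_zero_or_pos k with h0 | hk
  · subst h0
    simp
  obtain ⟨B, hB⟩ : ∃ B : Matrix (Fin k) (Fin k) ℝ, gram ℝ v = Bᵀ * B := by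
    obtain ⟨B, hB⟩ := CStarAlgebra.nonneg_iff_eq_star_mul_self.mp (posSemidef_gram ℝ v).nonneg
    refine ⟨B, hB.trans ?_⟩
    rw [Matrix.star_eq_conjTranspose, Matrix.conjTranspose_eq_transpose_of_trivial]
  have hdet : (gram ℝ v).det = B.det ^ 2 := by rw [hB, Matrix.det_mul, Matrix.det_transpose, sq]
  have hBd : B.det ≠ 0 := by
    intro h0
    rw [hdet, h0] at hv
    exact hv (by norm_num)
  have hval : ∀ w : Fin k → ℤ, ∑ i, (B.mulVec (fun j => (w j : ℝ))) i ^ 2 =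
      ‖∑ i, (w i : ℝ) • v i‖ ^ 2 := by
    intro w
    have h1 := star_dotProduct_gram_mulVec (𝕜 := ℝ) v (fun j => (w j : ℝ)) (fun j => (w j : ℝ))
    rw [real_inner_self_eq_norm_sq] at h1
    rw [← h1, hB, ← Matrix.mulVec_mulVec, star_trivial, Matrix.dotProduct_mulVec,
      Matrix.vecMul_transpose]
    exact Finset.sum_congr rfl fun i _ => sq _
  have hmin : lam ≤ minSq B := le_minSq hk B lam fun w hw => by
    rw [hval]
    exact h w hw
  have h2 := le_hermite hk B hBd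
  have hd : 0 < |B.det| := abs_pos.2 hBd
  rw [div_le_iff₀ (by positivity)] at h2
  have h3 : lam ^ k ≤ (hermite k * |B.det| ^ ((2 : ℝ) / k)) ^ k :=
    pow_le_pow_left₀ hl (hmin.trans h2) k
  refine h3.trans (le_of_eq ?_)
  rw [mul_pow, hdet]
  congr 1
  rw [← Real.rpow_natCast, ← Real.rpow_mul hd.le]
  have hk' : (k : ℝ) ≠ 0 := by positivity
  rw [div_mul_cancel₀ _ hk']
  norm_num

theorem gram_equiv {ι κ : Type} [Fintype ι] [DecidableEq ι] [Fintype κ] [DecidableEq κ]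
    (v : ι → E) (e : κ ≃ ι) : (gram ℝ (fun j => v (e j))).det = (gram ℝ v).det := by
  have : gram ℝ (fun j => v (e j)) = (gram ℝ v).submatrix e e := rfl
  rw [this, Matrix.det_submatrix_equiv_self]

theorem herm {ι : Type} [Fintype ι] [DecidableEq ι] (v : ι → E) (hv : (gram ℝ v).det ≠ 0) {lam : ℝ}
    (hl : 0 ≤ lam) (h : ∀ w : ι → ℤ, w ≠ 0 → lam ≤ ‖∑ i, (w i : ℝ) • v i‖ ^ 2) :
    lam ^ Fintype.card ι ≤ hermite (Fintype.card ι) ^ Fintype.card ι * (gram ℝ v).det := by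
  obtain ⟨e, -⟩ : ∃ e : Fin (Fintype.card ι) ≃ ι, True := ⟨(Fintype.equivFin ι).symm, trivial⟩
  rw [← gram_equiv v e] at hv ⊢
  refine herm_fin _ hv hl fun w hw => ?_
  have h1 := h (fun i => w (e.symm i)) (fun h0 => hw (by
    funext j
    have := congrFun h0 (e j)
    simpa using this))
  refine h1.trans (le_of_eq ?_)
  congr 2
  rw [← Equiv.sum_comp e]
  simp

section basis

variable {M : Type*} [AddCommGroup M] [Module ℤ M]

/-- the Gram determinant does not depend on the basis -/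
theorem gram_basis {ι : Type} [Fintype ι] [DecidableEq ι] (b b' : Module.Basis ι ℤ M)
    (φ : M →ₗ[ℤ] E) :
    (gram ℝ (fun i => φ (b' i))).det = (gram ℝ (fun i => φ (b i))).det := by
  obtain ⟨U, hU⟩ : ∃ U : Matrix ι ι ℤ, U = b.toMatrix b' := ⟨_, rfl⟩
  have h1 : ∀ j, φ (b' j) = ∑ i, ((U i j : ℤ) : ℝ) • φ (b i) := by
    intro j
    have h2 := (b.sum_toMatrix_smul_self b' j).symm
    rw [← hU] at h2
    conv_lhs => rw [h2]
    rw [map_sum]
    refine Finset.sum_congr rfl fun i _ => ?_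
    rw [LinearMap.map_smul]
    exact (Int.cast_smul_eq_zsmul ℝ _ _).symm
  have h2 : gram ℝ (fun i => φ (b' i)) =
      (U.map (fun z : ℤ => (z : ℝ)))ᵀ * gram ℝ (fun i => φ (b i)) * U.map (fun z : ℤ => (z : ℝ)) := by
    ext i j
    rw [gram_apply, h1 i, h1 j, sum_inner, Matrix.mul_assoc, Matrix.mul_apply]
    refine Finset.sum_congr rfl fun k _ => ?_
    rw [inner_smul_left, inner_sum, Matrix.mul_apply, Matrix.transpose_apply, Matrix.map_apply]
    congr 1
    refine Finset.sum_congr rfl fun l _ => ?_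
    rw [inner_smul_right, gram_apply, Matrix.map_apply]
    ring
  have h3 : U.det * (b'.toMatrix b).det = 1 := by
    rw [hU, ← Matrix.det_mul, Module.Basis.toMatrix_mul_toMatrix_flip, Matrix.det_one]
  have h4 : (U.det : ℤ) ^ 2 = 1 := by
    rcases Int.isUnit_iff.1 (IsUnit.of_mul_eq_one _ h3) with h | h <;> rw [h] <;> norm_num
  have h5 : (U.map (fun z : ℤ => (z : ℝ))).det = (U.det : ℝ) := by
    have := (Int.castRingHom ℝ).map_det U
    rw [RingHom.mapMatrix_apply] at this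
    exact this.symm
  rw [h2, Matrix.det_mul, Matrix.det_mul, Matrix.det_transpose, h5]
  have h6 : (U.det : ℝ) ^ 2 = 1 := by exact_mod_cast h4
  linear_combination (gram ℝ (fun i => φ (b i))).det * h6

variable [Module.Free ℤ M] [Module.Finite ℤ M]

/-- the squared covolume of the lattice `φ M` -/
noncomputable def cd (φ : M →ₗ[ℤ] E) : ℝ :=
  (gram ℝ (fun i => φ (Module.finBasis ℤ M i))).det

theorem cd_eq {ι : Type} [Fintype ι] [DecidableEq ι] (b : Module.Basis ι ℤ M) (φ : M →ₗ[ℤ] E) :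
    cd φ = (gram ℝ (fun i => φ (b i))).det := by
  have hc : Fintype.card ι = Module.finrank ℤ M := (Module.finrank_eq_card_basis b).symm
  obtain ⟨e, -⟩ : ∃ e : ι ≃ Fin (Module.finrank ℤ M), True :=
    ⟨Fintype.equivFinOfCardEq hc, trivial⟩
  unfold cd
  rw [gram_basis (b.reindex e) (Module.finBasis ℤ M) φ, ← gram_equiv (fun i => φ (b i)) e.symm]
  congr 3
  funext i
  rw [Module.Basis.reindex_apply]

theorem cd_equiv {M' : Type*} [AddCommGroup M'] [Module ℤ M'] [Module.Free ℤ M']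
    [Module.Finite ℤ M'] (e : M ≃ₗ[ℤ] M') (φ : M →ₗ[ℤ] E) (φ' : M' →ₗ[ℤ] E)
    (h : ∀ m, φ' (e m) = φ m) : cd φ' = cd φ := by
  rw [cd_eq ((Module.finBasis ℤ M).map e) φ', cd_eq (Module.finBasis ℤ M) φ]
  congr 3
  funext i
  rw [Module.Basis.map_apply, h]

theorem herm_cd (φ : M →ₗ[ℤ] E) (hφ : cd φ ≠ 0) {lam : ℝ} (hl : 0 ≤ lam)
    (h : ∀ m : M, m ≠ 0 → lam ≤ ‖φ m‖ ^ 2) :
    lam ^ Module.finrank ℤ M ≤ hermite (Module.finrank ℤ M) ^ Module.finrank ℤ M * cd φ := by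
  have key := herm (fun i => φ (Module.finBasis ℤ M i)) hφ hl (fun w hw => by
    obtain ⟨m, hm⟩ : ∃ m : M, m = (Module.finBasis ℤ M).equivFun.symm w := ⟨_, rfl⟩
    have h1 : ∑ i, (w i : ℝ) • φ (Module.finBasis ℤ M i) = φ m := by
      rw [hm, Module.Basis.equivFun_symm_apply, map_sum]
      refine Finset.sum_congr rfl fun i _ => ?_
      rw [LinearMap.map_smul]
      exact Int.cast_smul_eq_zsmul ℝ _ _
    rw [h1]
    refine h m fun h0 => hw ?_
    rw [hm] at h0
    exact (LinearEquiv.map_eq_zero_iff _).1 h0)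
  rw [Fintype.card_fin] at key
  exact key

end basis

end Pool.Agent.X43.HE
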