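import Pool.Agent.X43.HE.Step

/-!
# Iterating the kernel-image step
-/

set_option autoImplicit false

namespace Pool.Agent.X43.HE

open Matrix Pool.Agent.H160R3.Herm Pool.Agent.TH220.HG
open scoped InnerProductSpace

attribute [local instance 10] AddCommGroup.toIntModule

variable {E : Type*} [NormedAddCommGroup E] [InnerProductSpace ℝ E]

/-- iterated kernel-image step -/
theorem ind {V : Type} [AddCommGroup V] [Module ℤ V] [Module.Free ℤ V] [Module.Finite ℤ V]
    (φ : V →ₗ[ℤ] E) {lam D Γ : ℝ} (hl : 0 ≤ lam) (hD : 0 < D) (hΓ0 : 0 ≤ Γ)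
    (hlam : ∀ v : V, v ≠ 0 → lam ≤ ‖φ v‖ ^ 2) (s : ℕ)
    (hΓ : ∀ u, 1 ≤ u → u ≤ s → hermite u ≤ Γ) (S : Set (V →ₗ[ℤ] V))
    (hS : ∀ T ∈ S, ∃ Tr : E →ₗ[ℝ] E, (∀ v, Tr (φ v) = φ (T v)) ∧ ∀ x, ‖Tr x‖ ≤ D * ‖x‖)
    (hr : ∀ T ∈ S, Module.finrank ℤ (LinearMap.range T) ≤ s)
    (F : Submodule ℤ V) (hF : ∀ v, v ∈ F ↔ ∀ T ∈ S, T v = 0) :
    ∀ k, ∀ M : Submodule ℤ V, F ≤ M → Module.finrank ℤ M = k → cd (φ.comp M.subtype) ≠ 0 →
      Module.finrank ℤ F ≤ k ∧ cd (φ.comp F.subtype) ≠ 0 ∧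
      lam ^ (k - Module.finrank ℤ F) * cd (φ.comp F.subtype) ≤
        (D ^ 2 * Γ) ^ (k - Module.finrank ℤ F) * cd (φ.comp M.subtype) := by
  intro k
  induction k using Nat.strong_induction_on with
  | _ k ih =>
    intro M hFM hk hM
    by_cases hall : ∀ T ∈ S, ∀ v ∈ M, T v = 0
    · have hMF : M = F := le_antisymm (fun v hv => (hF v).2 fun T hT => hall T hT v hv) hFM
      subst hMF
      rw [hk, Nat.sub_self, pow_zero, pow_zero]
      exact ⟨le_rfl, hM, le_rfl⟩
    · push Not at hall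
      obtain ⟨T, hT, v, hv, hTv⟩ := hall
      obtain ⟨Tr, hTr1, hTr2⟩ := hS T hT
      obtain ⟨ψ, hψ⟩ : ∃ ψ : M →ₗ[ℤ] V, ψ = T.comp M.subtype := ⟨_, rfl⟩
      obtain ⟨h1, h2, h3⟩ := step (φ.comp M.subtype) hM ψ hl hD (fun m hm r hrr => by
        have hz : Tr r = 0 := by
          refine Submodule.span_induction (p := fun r _ => Tr r = 0) ?_ (map_zero _) ?_ ?_ hrr
          · rintro _ ⟨k, hk, rfl⟩
            have hk' : T (k : V) = 0 := by
              have := LinearMap.mem_ker.1 hk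
              rw [hψ] at this
              exact this
            show Tr (φ (k : V)) = 0
            rw [hTr1, hk', map_zero]
          · intro x y _ _ hx hy
            rw [map_add, hx, hy, add_zero]
          · intro a x _ hx
            rw [map_smul, hx, smul_zero]
        have hTm : T (m : V) ≠ 0 := by
          rw [hψ] at hm
          exact hm
        calc lam ≤ ‖φ (T (m : V))‖ ^ 2 := hlam _ hTm
          _ = ‖Tr ((φ.comp M.subtype) m + r)‖ ^ 2 := by
              rw [map_add, hz, add_zero]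
              show _ = ‖Tr (φ (m : V))‖ ^ 2
              rw [hTr1]
          _ ≤ (D * ‖(φ.comp M.subtype) m + r‖) ^ 2 :=
              pow_le_pow_left₀ (norm_nonneg _) (hTr2 _) 2
          _ = _ := by rw [mul_pow])
      obtain ⟨M', hM'⟩ : ∃ M' : Submodule ℤ V, M' = (LinearMap.ker ψ).map M.subtype := ⟨_, rfl⟩
      have hfr : Module.finrank ℤ M' = Module.finrank ℤ (LinearMap.ker ψ) := by
        rw [hM']
        exact (LinearEquiv.finrank_eq (M.equivSubtypeMap (LinearMap.ker ψ))).symm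
      have hcd : cd (φ.comp M'.subtype) =
          cd ((φ.comp M.subtype).comp (LinearMap.ker ψ).subtype) := by
        subst hM'
        exact cd_equiv (M.equivSubtypeMap (LinearMap.ker ψ)) _ _ (fun m => rfl)
      have hFM' : F ≤ M' := by
        intro v hv
        rw [hM']
        refine ⟨⟨v, hFM hv⟩, ?_, rfl⟩
        show ψ ⟨v, hFM hv⟩ = 0
        rw [hψ]
        exact (hF v).1 hv T hT
      have hu1 : 1 ≤ Module.finrank ℤ (LinearMap.range ψ) := by
        have hne : Nontrivial (LinearMap.range ψ) := by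
          refine ⟨⟨⟨ψ ⟨v, hv⟩, ⟨_, rfl⟩⟩, 0, ?_⟩⟩
          intro h0
          have := congrArg Subtype.val h0
          apply hTv
          rw [hψ] at this
          exact this
        exact Module.finrank_pos
      have hus : Module.finrank ℤ (LinearMap.range ψ) ≤ s := by
        refine le_trans ?_ (hr T hT)
        refine Submodule.finrank_mono ?_
        rw [hψ]
        exact LinearMap.range_comp_le_range _ _
      have hlt : Module.finrank ℤ M' < k := by
        rw [hfr]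
        omega
      obtain ⟨g1, g2, g3⟩ := ih _ hlt M' hFM' rfl (by rw [hcd]; exact h1)
      refine ⟨g1.trans hlt.le, g2, ?_⟩
      rw [← hcd] at h3
      have hk' : k - Module.finrank ℤ F = Module.finrank ℤ (LinearMap.range ψ) +
          (Module.finrank ℤ M' - Module.finrank ℤ F) := by omega
      rw [hk', pow_add, pow_add]
      have hM'0 : 0 ≤ cd (φ.comp M'.subtype) := cd_nonneg _
      have hM0 : 0 ≤ cd (φ.comp M.subtype) := cd_nonneg _
      have hh := hΓ _ hu1 hus
      have hh0 : 0 ≤ hermite (Module.finrank ℤ (LinearMap.range ψ)) := hermite_nonneg' _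
      calc lam ^ Module.finrank ℤ (LinearMap.range ψ) *
            lam ^ (Module.finrank ℤ M' - Module.finrank ℤ F) * cd (φ.comp F.subtype)
          = lam ^ Module.finrank ℤ (LinearMap.range ψ) *
            (lam ^ (Module.finrank ℤ M' - Module.finrank ℤ F) * cd (φ.comp F.subtype)) := by ring
        _ ≤ lam ^ Module.finrank ℤ (LinearMap.range ψ) *
            ((D ^ 2 * Γ) ^ (Module.finrank ℤ M' - Module.finrank ℤ F) *
              cd (φ.comp M'.subtype)) := mul_le_mul_of_nonneg_left g3 (by positivity)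
        _ = (D ^ 2 * Γ) ^ (Module.finrank ℤ M' - Module.finrank ℤ F) *
            (lam ^ Module.finrank ℤ (LinearMap.range ψ) * cd (φ.comp M'.subtype)) := by ring
        _ ≤ (D ^ 2 * Γ) ^ (Module.finrank ℤ M' - Module.finrank ℤ F) *
            ((D ^ 2 * hermite (Module.finrank ℤ (LinearMap.range ψ))) ^
              Module.finrank ℤ (LinearMap.range ψ) * cd (φ.comp M.subtype)) :=
            mul_le_mul_of_nonneg_left h3 (by positivity)
        _ ≤ (D ^ 2 * Γ) ^ (Module.finrank ℤ M' - Module.finrank ℤ F) *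
            ((D ^ 2 * Γ) ^
              Module.finrank ℤ (LinearMap.range ψ) * cd (φ.comp M.subtype)) := by
            gcongr
        _ = _ := by ring

/-- the master inequality, abstract form -/
theorem master {V : Type} [AddCommGroup V] [Module ℤ V] [Module.Free ℤ V] [Module.Finite ℤ V]
    (φ : V →ₗ[ℤ] E) (hφ : cd φ ≠ 0) {lam D Γ : ℝ} (hl : 0 ≤ lam) (hD : 0 < D) (hΓ0 : 0 ≤ Γ)
    (hlam : ∀ v : V, v ≠ 0 → lam ≤ ‖φ v‖ ^ 2) (s : ℕ)
    (hΓ : ∀ u, 1 ≤ u → u ≤ s → hermite u ≤ Γ) (S : Set (V →ₗ[ℤ] V))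
    (hS : ∀ T ∈ S, ∃ Tr : E →ₗ[ℝ] E, (∀ v, Tr (φ v) = φ (T v)) ∧ ∀ x, ‖Tr x‖ ≤ D * ‖x‖)
    (hr : ∀ T ∈ S, Module.finrank ℤ (LinearMap.range T) ≤ s)
    (F : Submodule ℤ V) (hF : ∀ v, v ∈ F ↔ ∀ T ∈ S, T v = 0) :
    Module.finrank ℤ F ≤ Module.finrank ℤ V ∧
    lam ^ Module.finrank ℤ V ≤ hermite (Module.finrank ℤ F) ^ Module.finrank ℤ F *
      (D ^ 2 * Γ) ^ (Module.finrank ℤ V - Module.finrank ℤ F) * cd φ := by
  have htop : cd (φ.comp (⊤ : Submodule ℤ V).subtype) = cd φ :=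
    cd_equiv (Submodule.topEquiv : _ ≃ₗ[ℤ] V).symm φ _ (fun m => rfl)
  have hft : Module.finrank ℤ (⊤ : Submodule ℤ V) = Module.finrank ℤ V := finrank_top ℤ V
  obtain ⟨g1, g2, g3⟩ := ind φ hl hD hΓ0 hlam s hΓ S hS hr F hF (Module.finrank ℤ V) ⊤ le_top hft
    (by rw [htop]; exact hφ)
  refine ⟨g1, ?_⟩
  rw [htop] at g3
  have h1 := herm_cd (φ.comp F.subtype) g2 hl (fun m hm => hlam _ (fun h0 => hm (Subtype.ext h0)))
  have hh0 : 0 ≤ hermite (Module.finrank ℤ F) ^ Module.finrank ℤ F :=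
    pow_nonneg (hermite_nonneg' _) _
  have hk : Module.finrank ℤ V = (Module.finrank ℤ V - Module.finrank ℤ F) +
    Module.finrank ℤ F := by omega
  calc lam ^ Module.finrank ℤ V = lam ^ (Module.finrank ℤ V - Module.finrank ℤ F) *
        lam ^ Module.finrank ℤ F := by rw [← pow_add, ← hk]
    _ ≤ lam ^ (Module.finrank ℤ V - Module.finrank ℤ F) *
        (hermite (Module.finrank ℤ F) ^ Module.finrank ℤ F * cd (φ.comp F.subtype)) :=
        mul_le_mul_of_nonneg_left h1 (by positivity)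
    _ = hermite (Module.finrank ℤ F) ^ Module.finrank ℤ F *
        (lam ^ (Module.finrank ℤ V - Module.finrank ℤ F) * cd (φ.comp F.subtype)) := by ring
    _ ≤ hermite (Module.finrank ℤ F) ^ Module.finrank ℤ F *
        ((D ^ 2 * Γ) ^ (Module.finrank ℤ V - Module.finrank ℤ F) * cd φ) :=
        mul_le_mul_of_nonneg_left g3 hh0
    _ = _ := by ring

end Pool.Agent.X43.HE
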