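import Pool.Agent.X43.HE.Ind

/-!
# Small-rank endomorphisms of a lattice, matrix form
-/

set_option autoImplicit false

namespace Pool.Agent.X43.HE

open Matrix Pool.Agent.H160R3.Herm Pool.Agent.TH220.HG
open scoped InnerProductSpace

attribute [local instance 10] AddCommGroup.toIntModule

/-- `emb A v = A v` as a vector of Euclidean space -/
noncomputable def emb {n : ℕ} {κ : Type} [Fintype κ] (A : Matrix (Fin n) κ ℝ) :
    (κ → ℤ) →ₗ[ℤ] EuclideanSpace ℝ (Fin n) where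
  toFun v := WithLp.toLp 2 (A *ᵥ fun j => (v j : ℝ))
  map_add' v w := by
    rw [← WithLp.toLp_add, ← Matrix.mulVec_add]
    congr 2
    funext j
    simp
  map_smul' c v := by
    have h1 : (fun j => ((c • v) j : ℝ)) = (c : ℝ) • fun j => (v j : ℝ) := by
      funext j
      simp
    rw [RingHom.id_apply, h1, Matrix.mulVec_smul, WithLp.toLp_smul]
    exact Int.cast_smul_eq_zsmul ℝ _ _

theorem emb_apply {n : ℕ} {κ : Type} [Fintype κ] (A : Matrix (Fin n) κ ℝ) (v : κ → ℤ) :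
    emb A v = WithLp.toLp 2 (A *ᵥ fun j => (v j : ℝ)) := rfl

theorem norm_emb {n : ℕ} {κ : Type} [Fintype κ] (A : Matrix (Fin n) κ ℝ) (v : κ → ℤ) :
    ‖emb A v‖ ^ 2 = ∑ i, (A *ᵥ fun j => (v j : ℝ)) i ^ 2 := by
  rw [EuclideanSpace.real_norm_sq_eq]
  rfl

theorem cd_emb {n : ℕ} {κ : Type} [Fintype κ] [DecidableEq κ] (A : Matrix (Fin n) κ ℝ) :
    cd (emb A) = (Aᵀ * A).det := by
  rw [cd_eq (Pi.basisFun ℤ κ)]
  congr 1
  ext i j
  rw [gram_apply, emb_apply, emb_apply, Matrix.mul_apply]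
  simp only [Pi.basisFun_apply]
  have h1 : ∀ j : κ, (fun k => ((Pi.single j (1 : ℤ) : κ → ℤ) k : ℝ)) = Pi.single j 1 := by
    intro j
    funext k
    by_cases h : k = j
    · subst h; simp
    · simp [h]
  rw [h1, h1, EuclideanSpace.inner_eq_star_dotProduct, Matrix.mulVec_single_one,
    Matrix.mulVec_single_one]
  simp only [dotProduct, Matrix.transpose_apply, Matrix.col_apply, star_trivial]
  exact Finset.sum_congr rfl fun k _ => mul_comm _ _

theorem cd_emb_sq {n : ℕ} (A : Matrix (Fin n) (Fin n) ℝ) : cd (emb A) = A.det ^ 2 := by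
  rw [cd_emb, Matrix.det_mul, Matrix.det_transpose, sq]

/-- rank of the common kernel of a set of integer matrices -/
noncomputable def kerRank {n : ℕ} (S : Set (Matrix (Fin n) (Fin n) ℤ)) : ℕ :=
  Module.finrank ℤ (⨅ T ∈ S, LinearMap.ker T.mulVecLin : Submodule ℤ (Fin n → ℤ))

theorem master_mat {n : ℕ} (hn : 0 < n) {A : Matrix (Fin n) (Fin n) ℝ} (hA : A.det ≠ 0)
    {D Γ : ℝ} (hD : 0 < D) (hΓ0 : 0 ≤ Γ) (s : ℕ) (hΓ : ∀ u, 1 ≤ u → u ≤ s → hermite u ≤ Γ)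
    (S : Set (Matrix (Fin n) (Fin n) ℤ)) (hr : ∀ T ∈ S, T.rank ≤ s)
    (hS : ∀ T ∈ S, ∀ x : Fin n → ℝ, ∑ i, (A *ᵥ (T.map (fun z : ℤ => (z : ℝ)) *ᵥ x)) i ^ 2 ≤
      D ^ 2 * ∑ i, (A *ᵥ x) i ^ 2) :
    kerRank S ≤ n ∧
    minSq A ^ n ≤ hermite (kerRank S) ^ kerRank S * (D ^ 2 * Γ) ^ (n - kerRank S) *
      A.det ^ 2 := by
  have hu : IsUnit A.det := isUnit_iff_ne_zero.2 hA
  have hcd : cd (emb A) ≠ 0 := by
    rw [cd_emb_sq]
    exact pow_ne_zero _ hA
  have key := master (emb A) hcd (minSq_nonneg A) hD hΓ0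
    (fun v hv => by rw [norm_emb]; exact minSq_le A v hv) s hΓ
    (Matrix.mulVecLin '' S) ?_ ?_ (⨅ T ∈ S, LinearMap.ker T.mulVecLin) ?_
  · rw [Module.finrank_fin_fun, cd_emb_sq] at key
    exact key
  · rintro _ ⟨T, hT, rfl⟩
    obtain ⟨T', hT'⟩ : ∃ T' : Matrix (Fin n) (Fin n) ℝ, T' = T.map (fun z : ℤ => (z : ℝ)) :=
      ⟨_, rfl⟩
    refine ⟨Matrix.toEuclideanLin (A * T' * A⁻¹), ?_, ?_⟩
    · intro v
      rw [emb_apply, emb_apply, Matrix.toLpLin_toLp, Matrix.toLin'_apply, Matrix.mulVec_mulVec,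
        Matrix.mul_assoc,
        Matrix.nonsing_inv_mul _ hu, Matrix.mul_one, ← Matrix.mulVec_mulVec]
      congr 2
      funext j
      rw [hT', Matrix.mulVecLin_apply]
      simp [Matrix.mulVec, dotProduct]
    · intro x
      have h1 : ‖Matrix.toEuclideanLin (A * T' * A⁻¹) x‖ ^ 2 ≤ (D * ‖x‖) ^ 2 := by
        have h2 := hS T hT (A⁻¹ *ᵥ x.ofLp)
        rw [← hT', Matrix.mulVec_mulVec, Matrix.mulVec_mulVec, Matrix.mulVec_mulVec,
          Matrix.mul_nonsing_inv _ hu, Matrix.one_mulVec] at h2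
        rw [mul_pow, EuclideanSpace.real_norm_sq_eq, EuclideanSpace.real_norm_sq_eq]
        exact h2
      exact (pow_le_pow_iff_left₀ (norm_nonneg _) (by positivity) two_ne_zero).1 h1
  · rintro _ ⟨T, hT, rfl⟩
    exact hr T hT
  · intro v
    simp only [Submodule.mem_iInf, LinearMap.mem_ker, Set.mem_image, forall_exists_index, and_imp,
      forall_apply_eq_imp_iff₂]

end Pool.Agent.X43.HE
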