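import Pool.Agent.X43.HE.Gram

/-!
# The kernel-image step
-/

set_option autoImplicit false

namespace Pool.Agent.X43.HE

open Matrix Pool.Agent.H160R3.Herm Pool.Agent.TH220.HG
open scoped InnerProductSpace

attribute [local instance 10] AddCommGroup.toIntModule

variable {E : Type*} [NormedAddCommGroup E] [InnerProductSpace ℝ E]

theorem cd_nonneg {M : Type*} [AddCommGroup M] [Module ℤ M] [Module.Free ℤ M] [Module.Finite ℤ M]
    (φ : M →ₗ[ℤ] E) : 0 ≤ cd φ := (posSemidef_gram ℝ _).det_nonneg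

/-- kernel-image splitting -/
theorem step {M N' : Type} [AddCommGroup M] [Module ℤ M] [Module.Free ℤ M] [Module.Finite ℤ M]
    [AddCommGroup N'] [Module ℤ N'] [Module.Free ℤ N'] [Module.Finite ℤ N']
    (φ : M →ₗ[ℤ] E) (hφ : cd φ ≠ 0) (ψ : M →ₗ[ℤ] N') {lam D : ℝ} (hl : 0 ≤ lam) (hD : 0 < D)
    (h : ∀ m, ψ m ≠ 0 → ∀ r ∈ Submodule.span ℝ (φ '' (LinearMap.ker ψ : Set M)),
      lam ≤ D ^ 2 * ‖φ m + r‖ ^ 2) :
    cd (φ.comp (LinearMap.ker ψ).subtype) ≠ 0 ∧
    Module.finrank ℤ M = Module.finrank ℤ (LinearMap.ker ψ) +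
      Module.finrank ℤ (LinearMap.range ψ) ∧
    lam ^ Module.finrank ℤ (LinearMap.range ψ) * cd (φ.comp (LinearMap.ker ψ).subtype) ≤
      (D ^ 2 * hermite (Module.finrank ℤ (LinearMap.range ψ))) ^
        Module.finrank ℤ (LinearMap.range ψ) * cd φ := by
  obtain ⟨s, hs⟩ := Module.projective_lifting_property ψ.rangeRestrict
    (LinearMap.id : LinearMap.range ψ →ₗ[ℤ] LinearMap.range ψ) ψ.surjective_rangeRestrict
  have hs' : ∀ y : LinearMap.range ψ, ψ (s y) = (y : N') := by
    intro y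
    have := LinearMap.congr_fun hs y
    exact congrArg Subtype.val this
  have hbij : Function.Bijective ((LinearMap.ker ψ).subtype.coprod s) := by
    constructor
    · rw [← LinearMap.ker_eq_bot, LinearMap.ker_eq_bot']
      rintro ⟨a, y⟩ h0
      rw [LinearMap.coprod_apply, Submodule.subtype_apply] at h0
      have h1 : ψ ((a : M) + s y) = 0 := by rw [h0, map_zero]
      rw [map_add, hs', LinearMap.mem_ker.1 a.2, zero_add] at h1
      have h2 : y = 0 := Subtype.ext h1
      rw [h2, map_zero, add_zero] at h0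
      have h3 : a = 0 := Subtype.ext h0
      rw [h2, h3]
      rfl
    · intro m
      refine ⟨(⟨m - s (ψ.rangeRestrict m), ?_⟩, ψ.rangeRestrict m), ?_⟩
      · rw [LinearMap.mem_ker, map_sub, hs']
        exact sub_self _
      · rw [LinearMap.coprod_apply, Submodule.subtype_apply]
        exact sub_add_cancel _ _
  obtain ⟨e, he⟩ : ∃ e : (LinearMap.ker ψ × LinearMap.range ψ) ≃ₗ[ℤ] M,
      ∀ p, e p = (p.1 : M) + s p.2 := ⟨LinearEquiv.ofBijective _ hbij, fun p => rfl⟩
  obtain ⟨bK, -⟩ : ∃ b : Module.Basis (Fin (Module.finrank ℤ (LinearMap.ker ψ))) ℤ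
      (LinearMap.ker ψ), True := ⟨Module.finBasis ℤ _, trivial⟩
  obtain ⟨bR, -⟩ : ∃ b : Module.Basis (Fin (Module.finrank ℤ (LinearMap.range ψ))) ℤ
      (LinearMap.range ψ), True := ⟨Module.finBasis ℤ _, trivial⟩
  obtain ⟨v, hv⟩ : ∃ v : Fin (Module.finrank ℤ (LinearMap.ker ψ)) → E,
    v = fun i => φ (bK i : M) := ⟨_, rfl⟩
  obtain ⟨c, hc⟩ : ∃ c : Fin (Module.finrank ℤ (LinearMap.range ψ)) → E,
    c = fun i => φ (s (bR i)) := ⟨_, rfl⟩
  have h1 : (gram ℝ (Sum.elim v c)).det = cd φ := by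
    rw [cd_eq ((bK.prod bR).map e) φ]
    congr 3
    funext i
    rcases i with i | i
    · rw [Sum.elim_inl, Module.Basis.map_apply, Module.Basis.prod_apply, he, hv]
      simp
    · rw [Sum.elim_inr, Module.Basis.map_apply, Module.Basis.prod_apply, he, hc]
      simp
  have hli : LinearIndependent ℝ (Sum.elim v c) := by
    rw [← det_gram_ne_zero_iff_linearIndependent, h1]
    exact hφ
  have hliv : LinearIndependent ℝ v := by
    have := hli.comp Sum.inl Sum.inl_injective
    exact this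
  have hvd : (gram ℝ v).det ≠ 0 := det_gram_ne_zero_iff_linearIndependent.2 hliv
  have hcK : cd (φ.comp (LinearMap.ker ψ).subtype) = (gram ℝ v).det := by
    rw [cd_eq bK, hv]
    rfl
  have hrank : Module.finrank ℤ M = Module.finrank ℤ (LinearMap.ker ψ) +
      Module.finrank ℤ (LinearMap.range ψ) := by
    rw [Module.finrank_eq_card_basis ((bK.prod bR).map e), Fintype.card_sum, Fintype.card_fin,
      Fintype.card_fin]
  refine ⟨by rw [hcK]; exact hvd, hrank, ?_⟩
  obtain ⟨c', hc', hdet⟩ := gram_sum v c hvd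
  rw [h1] at hdet
  have hd' : (gram ℝ c').det ≠ 0 := by
    intro h0
    rw [h0, mul_zero] at hdet
    exact hφ hdet
  have hD2 : 0 < D ^ 2 := by positivity
  have key := herm_fin c' hd' (lam := lam / D ^ 2) (by positivity) (fun w hw => by
    rw [div_le_iff₀' hD2]
    choose r hr using hc'
    obtain ⟨y, hy⟩ : ∃ y : LinearMap.range ψ, y = bR.equivFun.symm w := ⟨_, rfl⟩
    have hy0 : y ≠ 0 := by
      intro h0
      rw [hy] at h0
      exact hw ((LinearEquiv.map_eq_zero_iff _).1 h0)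
    have e1 : ∑ i, (w i : ℝ) • c i = φ (s y) := by
      rw [hy, Module.Basis.equivFun_symm_apply, map_sum, map_sum]
      refine Finset.sum_congr rfl fun i _ => ?_
      rw [LinearMap.map_smul, LinearMap.map_smul, hc]
      exact Int.cast_smul_eq_zsmul ℝ _ _
    have e2 : ∑ i, (w i : ℝ) • c' i = φ (s y) + ∑ i, (w i : ℝ) • ∑ j, r i j • v j := by
      rw [← e1, ← Finset.sum_add_distrib]
      refine Finset.sum_congr rfl fun i _ => ?_
      rw [hr, smul_add]
    rw [e2]
    refine h (s y) ?_ _ ?_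
    · rw [hs']
      intro h0
      exact hy0 (Subtype.ext h0)
    · refine Submodule.sum_mem _ fun i _ => Submodule.smul_mem _ _ (Submodule.sum_mem _ fun j _ =>
        Submodule.smul_mem _ _ (Submodule.subset_span ?_))
      exact ⟨bK j, (bK j).2, by rw [hv]⟩)
  rw [div_pow, div_le_iff₀ (by positivity)] at key
  rw [hcK]
  have hg : 0 ≤ (gram ℝ v).det := (posSemidef_gram ℝ v).det_nonneg
  calc lam ^ Module.finrank ℤ (LinearMap.range ψ) * (gram ℝ v).det
      ≤ (hermite (Module.finrank ℤ (LinearMap.range ψ)) ^ Module.finrank ℤ (LinearMap.range ψ) *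
        (gram ℝ c').det * (D ^ 2) ^ Module.finrank ℤ (LinearMap.range ψ)) * (gram ℝ v).det :=
        mul_le_mul_of_nonneg_right key hg
    _ = _ := by rw [hdet, mul_pow]; ring

end Pool.Agent.X43.HE
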